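import Pool.Agent.W23.KS.Defs

/-!
KI project (helper23): almost prime k-tuples in dense sets of INTEGERS, lower bounds of the expected
order `(log log X/log X)^k |A|` with the sharp number of exceptional systems.

This is the KS project (`Pool/Agent/W23/KS/Defs.lean`) with the integers `n ≤ N` in place of the
primes `p ≤ N`: everything becomes simpler (weights `Wt` only, no Selberg weights).  Every `St_X` below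
is the statement of one task; the doc comment is its complete proof.  The file of a task is
`Pool/Agent/W<yourseat>/KI/<Name>.lean`, the theorem has the name given in the comment.

The statements `KS.St_CORK` and `KS.St_OFDK` (correlations, off-diagonal terms) hold for all weights
`lam` with `SWs z lam`; with `z = 2` and `lam = lam1` below (`SWs 2 lam1`: `2/log 2 ≥ 1`) one has
`BX.nuS lam1 2 n = 1` and `LF lam1 2 = 1`, so they give the corresponding facts for the integers.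
-/

namespace Pool.Agent.W23.KI

open Finset
open Pool.Agent.H442R2
open Pool.Agent.H442R2.KF
open Pool.Agent.W23.DC
open Pool.Agent.W23.SG
open Pool.Agent.W23.PL
open Pool.Agent.W23.KT
open Pool.Agent.W23.KS

/-- the trivial weights -/
noncomputable def lam1 : ℕ → ℝ := fun q => if q = 1 then 1 else 0

open Classical in
/-- the discrepancy of `f` on the integers up to `N` with `d ∣ ∏ L(n)` -/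
noncomputable def DI (k : ℕ) (f : ℕ → ℝ) (N : ℕ) (S : Finset (ℤ × ℕ)) (d : ℕ) : ℝ :=
  (∑ n ∈ (Icc 1 N).filter (fun n : ℕ => (d : ℤ) ∣ Fp S n), f n) -
    (∑ n ∈ Icc 1 N, f n) * (kw k d / d)

/-- **LAM** (theorem `LAM : St_LAM`). -/
def St_LAM : Prop := SWs 2 lam1 ∧ (∀ n : ℤ, BX.nuS lam1 2 n = 1) ∧ LF lam1 2 = 1

/-- **BXBI** (theorem
`BXBI (hLAM : St_LAM) (hFLWK : St_FLWK) (hCORK : St_CORK) (hPBXK : St_PBXK) (hOFDK : St_OFDK)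
(hVLBK : St_VLBK) (hGS : BX.St_GS) : St_BXBI`; copy and adapt `Pool/Agent/W214/KS/BXBK*.lean`, the
proof of `KS.St_BXBK`).

Proof.  As BXBK with `z = 2`, `lam = lam1`, `w = Wt N` (`ν = 1`, `LF = 1`).  `η₀` from OFDK; `c₁` from
PBXK; `A = A₀ + 4 c₁ + 10`; `ε*` from FLWK at `k, η₀, A`, and `ε* ≤ 1/8`; `B₀ = E + 2k + 10`.  Given
`ε₁ ≤ ε*`, `ε = ε₁/2`, `B ≥ B₀`, `N ≥ N₀` (so `2 < N^ε₁`, `2 ≤ N^η₀`): `P_S = PK N B ε₁ S`,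
`V_S = Vk k P_S ∈ [V, 2V]`, `V = Vk k (P1 N B ε₁)`, `y = (log N)^B`, `D = ⌊N^η₀⌋`, `th_S, dl_S` from
FLWK.  `V ≥ (log N)^(-k)`, so the errors `C (log N)² (N (log N)^(E-B) + 1)` of CORK are
`≤ N V²/(log N)²`.
For `S ∈ 𝒜` let `c_S(d)` be the sign of `DI k (f xx) N S d` on `T S`, `0` elsewhere (`CofK` with
`X = ⌊N^(49/100)⌋`, by `BlK`), `x_S(n) = xx P_S (Fp S n)`, `r_S = x_S · rK k c_S X S`,
`Y_S = ∑_{n ≤ N} f n r_S(n)`.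
(G) `∑' w r_S² ≤ e^(2c₁/ε) ∑' Wt N (1+|n|/N)^(1/2) x_S ≤ 2 e^(4c₁/ε₁) ∑' Wt (2N) Ev th_S (Fp S n)`,
and CORK (second part) at `2N` gives `≤ C(ε₁) V N =: G`.
(O) `S ≠ S'`: `|∑' w r_S r_{S'}| ≤ |∑' w ΘΘ' rK rK'| + ∑' w (ΔΘ' + ΘΔ') |rK| |rK'|`; the first is
`≤ C N^(1-η)` (OFDK), the second is `≤ C e^((4c₁ - A)/ε₁) V² N` with an absolute `C` (CORK at `2N`).
Duality: `∑_S Y_S² ≤ 25 (∑_{n ≤ N} f²) (G + |𝒜| O)` (`w(n) ≥ e^(-π) ≥ 1/25` for `n ≤ N`), and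
`∑_{d ∈ T S} |DI| ≤ |Y_S| + E'`, as `∑_d c_d DI(d) = ∑_{n ≤ N} f n x_S(n) RK(n)` exactly, and the at
most `k` integers `n` with `Fp S n = 0` contribute `E' ≤ k (C₁ + 1) X ≤ C N^(1/2)`,
`C₁ = (k+1)^(2/ε₁) ≥ kw k d`.  `(|Y| + E')² ≤ 2 Y² + 2 E'²`. -/
def St_BXBI : Prop := ∀ k M : ℕ, 1 ≤ k → 1 ≤ M → ∀ A₀ : ℝ, 0 < A₀ → ∃ (B₀ : ℕ) (εs : ℝ), 0 < εs ∧
    ∀ ε₁ : ℝ, 0 < ε₁ → ε₁ ≤ εs → ∀ B : ℕ, B₀ ≤ B → ∃ (C : ℝ) (N₀ : ℕ), 0 < C ∧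
    ∀ N : ℕ, N₀ ≤ N → ∀ f : ℕ → ℝ, (∀ n, |f n| ≤ 1) → ∀ 𝒜 : Finset (Finset (ℤ × ℕ)),
    (∀ S ∈ 𝒜, SysK k M N S) → (∀ S ∈ 𝒜, ∀ S' ∈ 𝒜, S ≠ S' → Disjoint S S') →
    ∀ T : Finset (ℤ × ℕ) → Finset ℕ, (∀ S ∈ 𝒜, ∀ d ∈ T S, BlK N ε₁ S d) →
    ∑ S ∈ 𝒜, (∑ d ∈ T S,
      |DI k (fun n => f n * xx (PK N B ε₁ S) (Fp S n)) N S d|) ^ 2 ≤
      (N : ℝ) ^ 2 * (C * Vk k (P1 N B ε₁) +
        Real.exp (-(A₀ / ε₁)) * Vk k (P1 N B ε₁) ^ 2 * 𝒜.card)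

/-- **BX0I** (theorem
`BX0I (hLAM : St_LAM) (hFLWK : St_FLWK) (hCORK : St_CORK) (hVLBK : St_VLBK) (hGS : BX.St_GS) :
St_BX0I`; copy and adapt the proof of `KS.St_BX0K` (`Pool/Agent/W976/KS/*.lean`)).

Proof.  As BX0K with `z = 2`, `lam = lam1`, `w = Wt N`, `LF = 1` (`N` in place of `N LF`, and
`∑' w = N + O(1)` from CORK, second part, with `th = 1_{e=1}`, or `GS`/Poisson directly). -/
def St_BX0I : Prop := ∀ k M : ℕ, 1 ≤ k → 1 ≤ M → ∀ A₀ : ℝ, 0 < A₀ → ∃ (B₀ : ℕ) (εs : ℝ), 0 < εs ∧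
    ∀ ε₁ : ℝ, 0 < ε₁ → ε₁ ≤ εs → ∀ B : ℕ, B₀ ≤ B → ∃ (C : ℝ) (N₀ : ℕ), 0 < C ∧
    ∀ N : ℕ, N₀ ≤ N → ∀ f : ℕ → ℝ, (∀ n, |f n| ≤ 1) → ∀ 𝒜 : Finset (Finset (ℤ × ℕ)),
    (∀ S ∈ 𝒜, SysK k M N S) → (∀ S ∈ 𝒜, ∀ S' ∈ 𝒜, S ≠ S' → Disjoint S S') →
    ∑ S ∈ 𝒜, (∑ n ∈ Icc 1 N,
        f n * (xx (PK N B ε₁ S) (Fp S n) - Vk k (PK N B ε₁ S))) ^ 2 ≤
      (N : ℝ) ^ 2 * (C * Vk k (P1 N B ε₁) +
        Real.exp (-(A₀ / ε₁)) * Vk k (P1 N B ε₁) ^ 2 * 𝒜.card)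

open Classical in
/-- **BHI** (theorem `BHI : St_BHI`; this is `KS.St_BHU` (`Pool/Agent/W597/KS/BHU.lean`) with
`g(p) = k/p` in place of `k/(p-1)`). -/
def St_BHI : Prop := ∀ k : ℕ, 1 ≤ k → ∃ ζ c : ℝ, 0 < ζ ∧ ζ ≤ 1 / 10 ∧ 0 < c ∧ ∀ ε₁ : ℝ, 0 < ε₁ →
    ε₁ < ζ → ∃ N₀ : ℕ, ∀ N : ℕ, N₀ ≤ N → ∀ P : Finset ℕ, P ⊆ pr N ε₁ ζ →
    ∃ th : ℕ → ℝ, (∀ e, |th e| ≤ 1 / ε₁) ∧
      (∀ e, th e ≠ 0 → Squarefree e ∧ (e : ℝ) ≤ (N : ℝ) ^ (49 / 100 : ℝ) ∧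
        ∀ p : ℕ, p.Prime → p ∣ e → p ∈ P) ∧
      (∀ m : ℤ, ∑ e ∈ Icc 1 ⌊(N : ℝ) ^ (49 / 100 : ℝ)⌋₊, th e * (if (e : ℤ) ∣ m then 1 else 0) ≤
        xx P m) ∧
      c * ε₁ ^ k ≤ ∑ e ∈ Icc 1 ⌊(N : ℝ) ^ (49 / 100 : ℝ)⌋₊, th e * (kw k e / e)

open Classical in
/-- **UBSI** (theorem `UBSI (hVLBK : St_VLBK) (hRSK : St_RSK) : St_UBSI`; copy and adapt the proof of
`KS.St_UBSK` (`Pool/Agent/W946/KS/*.lean`), or `Pool/Agent/W366/PL/UBS.lean`; the sieve is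
`Pool.Agent.H373R2.T7.Fund`: `sys_fund`).  An upper bound sieve of dimension `k`.

Proof.  `m ∣ a + b n`, `(b, m) = 1`: `n` lies in one class `r` modulo `m`: `n = r + m j`,
`0 ≤ j ≤ N/m`; translate to `[1, X]`, `X = ⌊N/m⌋ + 2 ≥ N^(19/20)`.  Conditions modulo a prime
`l ∈ PK N B ε₁ S`, `l ≤ Y = N^(1/(2K))` (`K` from `sys_fund` with `c = k + 1`, `ε = 1`;
`Y^K ≤ N^(1/2) ≤ X`), `l ∤ m`: `l ∤ Fp S n`, i.e. `j` avoids `k` classes (RSK with `d = l`).  So the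
count is `≤ 2 X ∏_{l ∈ PK, l ≤ Y, l ∤ m} (1 - k/l) + √X`, and
`∏_{l ∈ PK, l | m} (1 - k/l)^(-1) ≤ 2` (at most `C log N` primes `l ≥ (log N)^B`, `B ≥ 2`),
`∏_{l ∈ PK, l ≤ Y} (1 - k/l) ≤ 2 Vk k (P1 N B ε₁') ≤ C Vk k (P1 N B ε₁)`, `ε₁' = min ε₁ (1/(2K))`
(VLBK for `ε₁` and `ε₁'`; the primes of `P1 N B ε₁'` are `≤ Y`). -/
def St_UBSI : Prop := ∀ k M B : ℕ, 1 ≤ k → 2 ≤ B → ∀ ε₁ : ℝ, 0 < ε₁ → ε₁ ≤ 1 →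
    ∃ (C : ℝ) (N₀ : ℕ), 0 < C ∧ ∀ N : ℕ, N₀ ≤ N → ∀ S : Finset (ℤ × ℕ), SysK k M N S →
    ∀ L ∈ S, ∀ m : ℕ, 1 ≤ m → (m : ℝ) ≤ (N : ℝ) ^ (1 / 20 : ℝ) → Nat.Coprime L.2 m →
    (((Icc 1 N).filter (fun n : ℕ => (m : ℤ) ∣ lf L n ∧
      xx (PK N B ε₁ S) (Fp S n) = 1)).card : ℝ) ≤
      C * (N / m) * Vk k (P1 N B ε₁)

open Classical in
/-- **SMOI** (theorem `SMOI (hUBSI : St_UBSI) (hVLBK : St_VLBK) : St_SMOI`; copy and adapt the proof of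
`KS.St_SMOK` (`Pool/Agent/W216/KS/*.lean`)).  Smooth parts.

Proof.  As SMOK, without case (3) (`m ≤ N/m` bound `C V N/m` instead of `C V N/(φ(m) log N)`). -/
def St_SMOI : Prop := ∀ k M B : ℕ, 1 ≤ k → 2 ≤ B → ∀ ε₁ : ℝ, 0 < ε₁ → ε₁ ≤ 1 → ∃ C : ℝ, 0 < C ∧
    ∀ u : ℕ, 1 ≤ u → ∃ N₀ : ℕ, ∀ N : ℕ, N₀ ≤ N → ∀ S : Finset (ℤ × ℕ), SysK k M N S → ∀ L ∈ S,
    (((Icc 1 N).filter (fun n : ℕ => lf L n ≠ 0 ∧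
      xx (PK N B ε₁ S) (Fp S n) = 1 ∧
      ∃ m : ℕ, m ∣ (lf L n).natAbs ∧ (∀ l : ℕ, l.Prime → l ∣ m → (l : ℝ) < Real.log N ^ B) ∧
      Real.log N ^ (B * u) < m)).card : ℝ) ≤
      C * Real.exp (-(u : ℝ)) * Vk k (P1 N B ε₁) * N

end Pool.Agent.W23.KI
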