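import Pool.Agent.W23.KI.Defs

/-!
KI project (helper23): the trivial weights.
-/

namespace Pool.Agent.W23.KI

open Finset
open Pool.Agent.H442R2
open Pool.Agent.H442R2.KF
open Pool.Agent.W23.DC
open Pool.Agent.W23.SG
open Pool.Agent.W23.PL
open Pool.Agent.W23.KT
open Pool.Agent.W23.KS

theorem lam1_of_ne {q : ℕ} (h : lam1 q ≠ 0) : q = 1 := by
  unfold lam1 at h
  by_contra hq
  rw [if_neg hq] at h
  exact h rfl

theorem Icc12 : Icc 1 2 = ({1, 2} : Finset ℕ) := by decide

theorem LF_lam1 : LF lam1 2 = 1 := by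
  unfold LF
  rw [Icc12]
  simp [lam1]

theorem LAM : St_LAM := by
  classical
  refine ⟨⟨⟨?_, ?_, ?_, ?_⟩, ?_⟩, ?_, LF_lam1⟩
  · simp [lam1]
  · intro q
    unfold lam1
    split_ifs <;> simp
  · intro q h
    have := lam1_of_ne h
    subst this
    exact ⟨le_rfl, by norm_num, odd_one⟩
  · have h := LF_lam1
    unfold LF at h
    push_cast
    rw [h, le_div_iff₀ (Real.log_pos (by norm_num))]
    have := Real.log_two_lt_d9
    linarith
  · intro q h
    have := lam1_of_ne h
    subst this
    exact squarefree_one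
  · intro n
    unfold BX.nuS
    have h1 : ∑ q ∈ (Icc 1 2).filter (fun q : ℕ => (q : ℤ) ∣ n), lam1 q = 1 := by
      rw [Finset.sum_eq_single 1]
      · simp [lam1]
      · intro q _ hq
        unfold lam1
        rw [if_neg hq]
      · intro h
        exfalso
        apply h
        rw [mem_filter]
        exact ⟨by decide, by simp⟩
    rw [h1]
    norm_num

end Pool.Agent.W23.KI
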