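import Pool.Agent.W23.KI.Fin3
import Pool.Agent.W23.KI.Lam
import Pool.Agent.W23.KS.All
import Pool.Agent.W973.KI.BXBI
import Pool.Agent.W351.KI.BX0I
import Pool.Agent.W23.KI.BHI
import Pool.Agent.W397.KI.UBSI
import Pool.Agent.W503.KI.SMOI

/-!
KI project (helper23): assembly.
-/

namespace Pool.Agent.W23.KI

open Finset
open Pool.Agent.H442R2
open Pool.Agent.W23.KT
open Pool.Agent.W23.KS

theorem BXBI_thm : St_BXBI := W973.KI.BXBI LAM FLWK_thm CORK_thm PBXK_thm OFDK_thm VLBK_thm BX.GS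
theorem BX0I_thm : St_BX0I := W351.KI.BX0I LAM FLWK_thm CORK_thm VLBK_thm BX.GS
theorem BHI_thm : St_BHI := B193.BHI
theorem UBSI_thm : St_UBSI := W397.KI.UBSI VLBK_thm RSK_thm
theorem SMOI_thm : St_SMOI := W503.KI.SMOI UBSI_thm VLBK_thm

theorem main_thm (k M : ℕ) (hk : 1 ≤ k) (hM : 1 ≤ M) :
    ∃ r : ℕ, 1 ≤ r ∧ ∀ δ : ℝ, 0 < δ → ∃ (c C : ℝ) (t : ℕ), 0 < c ∧ ∀ X : ℕ, 3 ≤ X →
      ∀ A : Finset ℕ, (∀ p ∈ A, 1 ≤ p ∧ p ≤ X) → δ * X ≤ A.card →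
      ∃ H : Finset (ℤ × ℕ), (H.card : ℝ) ≤ C * (Real.log X / Real.log (Real.log X)) ^ k ∧
        ∀ S, SysK k M X S → Disjoint S H →
          c * (Real.log (Real.log X) / Real.log X) ^ k * A.card ≤ ((G3 A X t r S).card : ℝ) :=
  mainIX BHI_thm BXBI_thm BX0I_thm VLBK_thm UBSI_thm SMOI_thm k M hk hM

theorem sharp_thm (k M t r : ℕ) (hk : 1 ≤ k) (hr : 1 ≤ r) (η : ℝ) (hη : 0 < η) :
    ∃ (c' : ℝ) (X₀ : ℕ), 0 < c' ∧ ∀ X : ℕ, X₀ ≤ X → ∀ 𝒮 : Finset (Finset (ℤ × ℕ)),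
      (∀ S ∈ 𝒮, SysK k M X S) →
      (𝒮.card : ℝ) ≤ c' * (Real.log X / Real.log (Real.log X)) ^ k →
      ∃ A : Finset ℕ, (∀ p ∈ A, 1 ≤ p ∧ p ≤ X) ∧ (1 - η) * X ≤ A.card ∧
        ∀ S ∈ 𝒮, G3 A X t r S = ∅ :=
  sharpI UBSI_thm VLBK_thm k M t r hk hr η hη

theorem upper_thm (k M t r : ℕ) (hk : 1 ≤ k) (hr : 1 ≤ r) :
    ∃ (C : ℝ) (X₀ : ℕ), 0 < C ∧ ∀ X : ℕ, X₀ ≤ X → ∀ S, SysK k M X S →
      ((G3 (Icc 1 X) X t r S).card : ℝ) ≤ C * (Real.log (Real.log X) / Real.log X) ^ k * X :=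
  upperI UBSI_thm VLBK_thm k M t r hk hr

end Pool.Agent.W23.KI
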