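import Pool.Agent.W23.KI.Defs
import Pool.Agent.W23.KS.Fin3

/-!
KI project (helper23): the sieve and the bad primes.
-/

namespace Pool.Agent.W23.KI

open Finset Filter
open Pool.Agent.H442R2
open Pool.Agent.H442R2.KF
open Pool.Agent.W23.DC
open Pool.Agent.W23.SG
open Pool.Agent.W23.PL
open Pool.Agent.W23.KT
open Pool.Agent.W23.KS

theorem card_AI {A : Finset ℕ} {N : ℕ} (hA : ∀ n ∈ A, 1 ≤ n ∧ n ≤ N) (B k : ℕ) (ε₁ : ℝ)
    (S : Finset (ℤ × ℕ)) :
    ((AS A N B ε₁ S).card : ℝ) - Vk k (PK N B ε₁ S) * A.card =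
      ∑ n ∈ Icc 1 N, fA A n * (xx (PK N B ε₁ S) (Fp S n) - Vk k (PK N B ε₁ S)) := by
  classical
  have hsub : A ⊆ Icc 1 N := by
    intro p hp
    rw [mem_Icc]
    exact hA p hp
  rw [← Finset.sum_subset hsub (fun p _ hpn => by
    unfold fA
    rw [if_neg hpn, zero_mul])]
  have h1 : ∑ p ∈ A, fA A p * (xx (PK N B ε₁ S) (Fp S p) - Vk k (PK N B ε₁ S)) =
      ∑ p ∈ A, (xx (PK N B ε₁ S) (Fp S (p : ℤ)) - Vk k (PK N B ε₁ S)) := by
    apply Finset.sum_congr rfl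
    intro p hp
    unfold fA
    rw [if_pos hp, one_mul]
  rw [h1, Finset.sum_sub_distrib, Finset.sum_const, nsmul_eq_mul]
  have h2 : ((AS A N B ε₁ S).card : ℝ) = ∑ p ∈ A, xx (PK N B ε₁ S) (Fp S (p : ℤ)) := by
    unfold AS
    rw [Finset.card_filter]
    push_cast
    apply Finset.sum_congr rfl
    intro p _
    unfold xx
    split_ifs <;> simp_all
  rw [h2]
  ring

theorem DI_one (k : ℕ) (f : ℕ → ℝ) (N : ℕ) (S : Finset (ℤ × ℕ)) : DI k f N S 1 = 0 := by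
  unfold DI
  rw [kw_one]
  have : (Icc 1 N).filter (fun p : ℕ => ((1 : ℕ) : ℤ) ∣ Fp S p) = Icc 1 N := by
    apply Finset.filter_true_of_mem
    intro p _
    push_cast
    exact one_dvd _
  rw [this]
  simp

open Classical in
theorem countI {N : ℕ} {A : Finset ℕ} (hA : ∀ n ∈ A, 1 ≤ n ∧ n ≤ N) (k : ℕ)
    (S : Finset (ℤ × ℕ)) (e : ℕ) :
    ∑ p ∈ A, (if (e : ℤ) ∣ Fp S p then (1 : ℝ) else 0) =
      (A.card : ℝ) * (kw k e / e) + DI k (fA A) N S e := by
  unfold DI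
  have h1 : ∑ p ∈ (Icc 1 N).filter (fun p : ℕ => (e : ℤ) ∣ Fp S p), fA A p =
      ∑ p ∈ A, (if (e : ℤ) ∣ Fp S p then (1 : ℝ) else 0) := by
    rw [← Finset.sum_filter]
    symm
    have h3 : A.filter (fun p : ℕ => (e : ℤ) ∣ Fp S p) ⊆
        (Icc 1 N).filter (fun p : ℕ => (e : ℤ) ∣ Fp S p) := by
      intro p hp
      rw [mem_filter] at hp
      rw [mem_filter, mem_Icc]
      exact ⟨hA p hp.1, hp.2⟩
    rw [← Finset.sum_subset h3]
    · apply Finset.sum_congr rfl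
      intro p hp
      rw [mem_filter] at hp
      unfold fA
      rw [if_pos hp.1]
    · intro p hp hpn
      rw [mem_filter] at hp hpn
      unfold fA
      rw [if_neg]
      intro h
      exact hpn ⟨h, hp.2⟩
  have h4 : ∑ p ∈ Icc 1 N, fA A p = A.card := by
    have h5 : A ⊆ Icc 1 N := by
      intro p hp
      rw [mem_Icc]
      exact hA p hp
    rw [← Finset.sum_subset h5]
    · have : ∑ p ∈ A, fA A p = ∑ p ∈ A, (1 : ℝ) := by
        apply Finset.sum_congr rfl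
        intro p hp
        unfold fA
        rw [if_pos hp]
      rw [this]
      simp
    · intro p _ hpn
      unfold fA
      rw [if_neg hpn]
  rw [h1, h4]
  ring

/-- the sieve lower bound -/
theorem sieveI (hBHI : St_BHI) (k : ℕ) (hk : 1 ≤ k) : ∃ ζ c : ℝ, 0 < ζ ∧ ζ ≤ 1 / 10 ∧ 0 < c ∧
    ∀ ε₁ : ℝ, 0 < ε₁ → ε₁ < ζ → ∃ N₀ : ℕ, ∀ N : ℕ, N₀ ≤ N → ∀ A : Finset ℕ,
    (∀ n ∈ A, 1 ≤ n ∧ n ≤ N) → ∀ S : Finset (ℤ × ℕ),
    c * ε₁ ^ k * A.card - 1 / ε₁ * ∑ d ∈ TB N ε₁ S, |DI k (fA A) N S d| ≤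
      ∑ p ∈ A, xx (PS N ε₁ ζ S) (Fp S p) := by
  classical
  obtain ⟨ζ, c, hζ, hζ2, hc, H⟩ := hBHI k hk
  refine ⟨ζ, c, hζ, hζ2, hc, fun ε₁ hε hεζ => ?_⟩
  obtain ⟨N₀, H1⟩ := H ε₁ hε hεζ
  refine ⟨max N₀ 2, fun N hN A hA S => ?_⟩
  have hN2 : 2 ≤ N := (le_max_right _ _).trans hN
  have hN1 : (1 : ℝ) < N := by exact_mod_cast (by omega : 1 < N)
  obtain ⟨th, h1, h2, h3, h4⟩ := H1 N ((le_max_left _ _).trans hN) (PS N ε₁ ζ S)
    (Finset.filter_subset _ _)
  set D := ⌊(N : ℝ) ^ (49 / 100 : ℝ)⌋₊ with hD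
  have e1 : ∑ p ∈ A, ∑ e ∈ Icc 1 D, th e * (if (e : ℤ) ∣ Fp S p then (1 : ℝ) else 0) =
      (A.card : ℝ) * (∑ e ∈ Icc 1 D, th e * (kw k e / e)) +
        ∑ e ∈ Icc 1 D, th e * DI k (fA A) N S e := by
    rw [Finset.sum_comm, Finset.mul_sum, ← Finset.sum_add_distrib]
    apply Finset.sum_congr rfl
    intro e _
    rw [← Finset.mul_sum, countI hA k S e]
    ring
  have e2 : ∑ p ∈ A, ∑ e ∈ Icc 1 D, th e * (if (e : ℤ) ∣ Fp S p then (1 : ℝ) else 0) ≤
      ∑ p ∈ A, xx (PS N ε₁ ζ S) (Fp S p) := by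
    apply Finset.sum_le_sum
    intro p _
    have := h3 (Fp S p)
    convert this using 2
  have e3 : |∑ e ∈ Icc 1 D, th e * DI k (fA A) N S e| ≤
      1 / ε₁ * ∑ d ∈ TB N ε₁ S, |DI k (fA A) N S d| := by
    have hz : ∀ e ∈ Icc 1 D, e ∉ TB N ε₁ S → th e * DI k (fA A) N S e = 0 := by
      intro e he heT
      by_cases hth : th e = 0
      · rw [hth, zero_mul]
      · obtain ⟨g1, g2, g3⟩ := h2 e hth
        rw [mem_Icc] at he
        by_cases he1 : e = 1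
        · rw [he1, DI_one, mul_zero]
        · exfalso
          apply heT
          unfold TB
          rw [mem_filter, mem_Icc]
          refine ⟨⟨he.1, he.2⟩, ⟨by omega, he.2, g1, fun p hp hpe => ?_⟩, fun p hp hpe => ?_⟩
          · have h5 := g3 p hp hpe
            unfold PS at h5
            rw [mem_filter, mem_pr] at h5
            refine ⟨?_, h5.2⟩
            have h6 := (le_tt_iff hN2 hp.pos _).1 h5.1.2.2.1
            exact lt_of_lt_of_le (Real.rpow_lt_rpow_of_exponent_lt hN1 (by linarith)) h6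
          · have h5 := g3 p hp hpe
            unfold PS at h5
            rw [mem_filter, mem_pr] at h5
            exact h5.1.2.2.1
    have hsub : TB N ε₁ S ⊆ Icc 1 D := Finset.filter_subset _ _
    rw [← Finset.sum_subset hsub hz]
    calc |∑ e ∈ TB N ε₁ S, th e * DI k (fA A) N S e|
        ≤ ∑ e ∈ TB N ε₁ S, |th e * DI k (fA A) N S e| := Finset.abs_sum_le_sum_abs _ _
      _ ≤ ∑ e ∈ TB N ε₁ S, 1 / ε₁ * |DI k (fA A) N S e| := by
          apply Finset.sum_le_sum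
          intro e _
          rw [abs_mul]
          exact mul_le_mul_of_nonneg_right (h1 e) (abs_nonneg _)
      _ = _ := by rw [Finset.mul_sum]
  have e4 := (abs_le.1 e3).1
  have e5 : c * ε₁ ^ k * A.card ≤
      (A.card : ℝ) * (∑ e ∈ Icc 1 D, th e * (kw k e / e)) := by
    have := mul_le_mul_of_nonneg_left h4 (Nat.cast_nonneg A.card : (0 : ℝ) ≤ A.card)
    linarith
  linarith

open Classical in
/-- the integers at which the form has a bad prime factor -/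
noncomputable def BdI (N B : ℕ) (ε₁ : ℝ) (S : Finset (ℤ × ℕ)) (L : ℤ × ℕ) : Finset ℕ :=
  (Icc 1 N).filter (fun p : ℕ => xx (PK N B ε₁ S) (Fp S p) = 1 ∧ lf L p ≠ 0 ∧
    ∃ l : ℕ, l.Prime ∧ Real.log N ^ B ≤ (l : ℝ) ∧ ¬ gp S l ∧ (l : ℤ) ∣ lf L p)

/-- the integers at which a form has a bad prime factor -/
theorem badI (hUBSI : St_UBSI) (hVLBK : St_VLBK) (k M B : ℕ) (hk : 1 ≤ k) (hB : 2 ≤ B) {ε₁ : ℝ}
    (hε : 0 < ε₁) (hε1 : ε₁ ≤ 1) {τ : ℝ} (hτ : 0 < τ) : ∃ N₀ : ℕ, ∀ N : ℕ, N₀ ≤ N →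
    ∀ S, SysK k M N S → ∀ L ∈ S,
    ((BdI N B ε₁ S L).card : ℝ) ≤ τ * (Vk k (P1 N B ε₁) * N) := by
  classical
  obtain ⟨C, N₁, hC, H1⟩ := hUBSI k M B hk hB ε₁ hε hε1
  obtain ⟨c₂, hc₂, H2⟩ := Vk_ge hVLBK k hk
  obtain ⟨N₂, hN₂3, H2'⟩ := H2 M B hB ε₁ hε hε1
  set W := bc k M + 1 with hW
  have hW0 : 0 < W := by
    have := bc_nonneg k M
    rw [hW]
    linarith
  obtain ⟨N₃, H3⟩ := log_large (2 * C * W / τ + 1)
  obtain ⟨N₄, H4⟩ := logpow_small (k + 1) (show (0 : ℝ) < 1 / 20 by norm_num)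
    (show (0 : ℝ) < τ / (4 * W) by positivity)
  refine ⟨max (max N₁ N₂) (max N₃ N₄), fun N hN S hS L hL => ?_⟩
  have hNN₁ : N₁ ≤ N := ((le_max_left _ _).trans (le_max_left _ _)).trans hN
  have hNN₂ : N₂ ≤ N := ((le_max_right _ _).trans (le_max_left _ _)).trans hN
  have hNN₃ : N₃ ≤ N := ((le_max_left _ _).trans (le_max_right _ _)).trans hN
  have hNN₄ : N₄ ≤ N := ((le_max_right _ _).trans (le_max_right _ _)).trans hN
  have hN3 : 3 ≤ N := hN₂3.trans hNN₂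
  have hN2 : 2 ≤ N := by omega
  have hN1 : (1 : ℝ) < N := by exact_mod_cast (by omega : 1 < N)
  have hN0 : (0 : ℝ) < N := by linarith
  have hlog := H3 N hNN₃
  have hL1 : 1 ≤ Real.log N := by
    have : 0 ≤ 2 * C * W / τ := by positivity
    linarith
  have hL0 : 0 < Real.log N := by linarith
  obtain ⟨-, hV, -⟩ := H2' N hNN₂
  set V := Vk k (P1 N B ε₁) with hVdef
  have hV0 : 0 < V := lt_of_lt_of_le (by positivity) hV
  -- the bad primes
  set Bp : Finset ℕ := (Icc 1 (N ^ (M + 2))).filter (fun l => l.Prime ∧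
    Real.log N ^ B ≤ (l : ℝ) ∧ ¬ gp S l) with hBp
  have hBc : (Bp.card : ℝ) ≤ W * Real.log N := by
    have h := bad_card k M hN2 S hS.sys Bp (fun l hl => by
      rw [hBp, mem_filter] at hl
      exact ⟨hl.2.1, hl.2.2.2⟩)
    refine h.trans ?_
    rw [hW]
    gcongr
    linarith
  set G : ℕ → Finset ℕ := fun l => (Icc 1 N).filter (fun p : ℕ => (l : ℤ) ∣ lf L p ∧
    xx (PK N B ε₁ S) (Fp S p) = 1) with hG
  have hsub : BdI N B ε₁ S L ⊆ Bp.biUnion G := by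
    intro p hp
    unfold BdI at hp
    rw [mem_filter, mem_Icc] at hp
    obtain ⟨⟨hp1, hpN⟩, hpx, hp0, l, hl, hlB, hlg, hld⟩ := hp
    rw [mem_biUnion]
    refine ⟨l, ?_, ?_⟩
    · rw [hBp, mem_filter, mem_Icc]
      refine ⟨⟨hl.pos, ?_⟩, hl, hlB, hlg⟩
      have h1 : l ≤ (lf L p).natAbs := Nat.le_of_dvd (by
        rw [Int.natAbs_pos]
        exact hp0) (Int.natCast_dvd.1 hld)
      have h2 := lf_le hN2 (hS.sys.fo L hL) hpN
      have h3 : (l : ℝ) ≤ ((N ^ (M + 2) : ℕ) : ℝ) := by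
        push_cast
        exact le_trans (by exact_mod_cast h1) h2
      exact_mod_cast h3
    · rw [hG]
      simp only
      rw [mem_filter, mem_Icc]
      exact ⟨⟨hp1, hpN⟩, hld, hpx⟩
  have hGc : ∀ l ∈ Bp, ((G l).card : ℝ) ≤
      2 * (N : ℝ) ^ (19 / 20 : ℝ) + C / Real.log N ^ 2 * (V * N) := by
    intro l hl
    rw [hBp, mem_filter, mem_Icc] at hl
    obtain ⟨-, hlp, hlB, -⟩ := hl
    have hpow : (1 : ℝ) ≤ (N : ℝ) ^ (19 / 20 : ℝ) := Real.one_le_rpow hN1.le (by norm_num)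
    have hpos2 : 0 ≤ C / Real.log N ^ 2 * (V * N) := by positivity
    have hFo := hS.sys.fo L hL
    by_cases hlb : l ∣ L.2
    · have : G l = ∅ := by
        apply Finset.filter_eq_empty_iff.2
        intro p _ h
        exact not_dvd_b hFo.cop hlp h.1 hlb
      rw [this]
      simp only [card_empty, Nat.cast_zero]
      positivity
    · rcases le_or_gt (l : ℝ) ((N : ℝ) ^ (1 / 20 : ℝ)) with hle | hgt
      · have h1 := H1 N hNN₁ S hS L hL l hlp.pos hle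
          ((hlp.coprime_iff_not_dvd.2 hlb).symm)
        have h2 : ((G l).card : ℝ) ≤ C * (N / l) * V := by
          refine le_trans (le_of_eq ?_) h1
          congr 2
        refine h2.trans ?_
        have h3 : Real.log N ^ 2 ≤ (l : ℝ) := (pow_le_pow_right₀ hL1 hB).trans hlB
        have h4 : 0 < Real.log N ^ 2 := by positivity
        have h6 : C * (N / l) * V ≤ C * (N / Real.log N ^ 2) * V := by gcongr
        have h7 : C * (N / Real.log N ^ 2) * V = C / Real.log N ^ 2 * (V * N) := by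
          field_simp
        have h8 : 0 ≤ 2 * (N : ℝ) ^ (19 / 20 : ℝ) := by positivity
        linarith
      · have h3 := one_class hlp.pos (Icc 1 N) (fun p hp => (mem_Icc.1 hp).2) L
          ((hlp.coprime_iff_not_dvd).2 hlb)
        have h4 : ((G l).card : ℝ) ≤
            (((Icc 1 N).filter (fun p : ℕ => (l : ℤ) ∣ lf L p)).card : ℝ) := by
          exact_mod_cast Finset.card_le_card (fun p hp => by
            rw [hG] at hp
            simp only at hp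
            rw [mem_filter] at hp ⊢
            exact ⟨hp.1, hp.2.1⟩)
        have h5 : (N : ℝ) / l ≤ (N : ℝ) ^ (19 / 20 : ℝ) := by
          have h6 : (N : ℝ) ^ (19 / 20 : ℝ) = N / (N : ℝ) ^ (1 / 20 : ℝ) := by
            rw [eq_div_iff (by positivity), ← Real.rpow_add hN0]
            norm_num
          rw [h6]
          exact div_le_div_of_nonneg_left hN0.le (by positivity) hgt.le
        linarith
  have hsum : ((BdI N B ε₁ S L).card : ℝ) ≤
      W * Real.log N * (2 * (N : ℝ) ^ (19 / 20 : ℝ) + C / Real.log N ^ 2 * (V * N)) := by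
    have h1 : (BdI N B ε₁ S L).card ≤ ∑ l ∈ Bp, (G l).card :=
      (Finset.card_le_card hsub).trans Finset.card_biUnion_le
    calc ((BdI N B ε₁ S L).card : ℝ) ≤ ∑ l ∈ Bp, ((G l).card : ℝ) := by exact_mod_cast h1
      _ ≤ ∑ _l ∈ Bp, (2 * (N : ℝ) ^ (19 / 20 : ℝ) + C / Real.log N ^ 2 * (V * N)) :=
          Finset.sum_le_sum hGc
      _ = Bp.card * (2 * (N : ℝ) ^ (19 / 20 : ℝ) + C / Real.log N ^ 2 * (V * N)) := by
          rw [Finset.sum_const, nsmul_eq_mul]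
      _ ≤ _ := by gcongr
  refine hsum.trans ?_
  have hA1 : W * Real.log N * (2 * (N : ℝ) ^ (19 / 20 : ℝ)) ≤ τ / 2 * (V * N) := by
    have h1 := H4 N hNN₄
    have h2 : (N : ℝ) = (N : ℝ) ^ (19 / 20 : ℝ) * (N : ℝ) ^ (1 / 20 : ℝ) := by
      rw [← Real.rpow_add hN0]
      norm_num
    have h3 : τ / 2 * (1 / Real.log N ^ k * N) ≤ τ / 2 * (V * N) := by gcongr
    refine le_trans ?_ h3
    have h4 : τ / 2 * (1 / Real.log N ^ k * N) = τ / 2 * N / Real.log N ^ k := by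
      field_simp
    rw [h4, le_div_iff₀ (by positivity)]
    calc W * Real.log N * (2 * (N : ℝ) ^ (19 / 20 : ℝ)) * Real.log N ^ k
        = 2 * W * (N : ℝ) ^ (19 / 20 : ℝ) * Real.log N ^ (k + 1) := by ring
      _ ≤ 2 * W * (N : ℝ) ^ (19 / 20 : ℝ) * (τ / (4 * W) * (N : ℝ) ^ (1 / 20 : ℝ)) := by gcongr
      _ = τ / 2 * ((N : ℝ) ^ (19 / 20 : ℝ) * (N : ℝ) ^ (1 / 20 : ℝ)) := by
          field_simp
          ring
      _ = τ / 2 * N := by rw [← h2]
  have hA2 : W * Real.log N * (C / Real.log N ^ 2 * (V * N)) ≤ τ / 2 * (V * N) := by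
    have h1 : W * Real.log N * (C / Real.log N ^ 2 * (V * N)) =
        C * W / Real.log N * (V * N) := by
      field_simp
    rw [h1]
    apply mul_le_mul_of_nonneg_right _ (by positivity)
    rw [div_le_iff₀ hL0]
    have h2 : 2 * C * W / τ ≤ Real.log N := by linarith
    rw [div_le_iff₀ hτ] at h2
    linarith
  calc _ = W * Real.log N * (2 * (N : ℝ) ^ (19 / 20 : ℝ)) +
        W * Real.log N * (C / Real.log N ^ 2 * (V * N)) := by ring
    _ ≤ τ / 2 * (V * N) + τ / 2 * (V * N) := add_le_add hA1 hA2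
    _ = _ := by ring

end Pool.Agent.W23.KI
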