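import Pool.Agent.W23.KI.Fin2

/-!
KI project (helper23): the final form, and the sharpness.
-/

namespace Pool.Agent.W23.KI

open Finset Filter
open Pool.Agent.H442R2
open Pool.Agent.H442R2.KF
open Pool.Agent.W23.DC
open Pool.Agent.W23.SG
open Pool.Agent.W23.PL
open Pool.Agent.W23.KT
open Pool.Agent.W23.KS

theorem mainIX (hBHI : St_BHI) (hBXBI : St_BXBI) (hBX0I : St_BX0I) (hVLBK : St_VLBK)
    (hUBSI : St_UBSI) (hSMOI : St_SMOI) (k M : ℕ) (hk : 1 ≤ k) (hM : 1 ≤ M) :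
    ∃ r : ℕ, 1 ≤ r ∧ ∀ δ : ℝ, 0 < δ → ∃ (c C : ℝ) (t : ℕ), 0 < c ∧ ∀ X : ℕ, 3 ≤ X →
      ∀ A : Finset ℕ, (∀ p ∈ A, 1 ≤ p ∧ p ≤ X) → δ * X ≤ A.card →
      ∃ H : Finset (ℤ × ℕ), (H.card : ℝ) ≤ C * (Real.log X / Real.log (Real.log X)) ^ k ∧
        ∀ S, SysK k M X S → Disjoint S H →
          c * (Real.log (Real.log X) / Real.log X) ^ k * A.card ≤ ((G3 A X t r S).card : ℝ) := by
  classical
  obtain ⟨r, hr, H1⟩ := mainI hBHI hBXBI hBX0I hVLBK hUBSI hSMOI k M hk hM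
  refine ⟨r, hr, fun δ hδ => ?_⟩
  obtain ⟨c, C, t, N₀, hc, hC, H2⟩ := H1 δ hδ
  refine ⟨c, max C (box M N₀).card, t, hc, fun X hX A hA hAc => ?_⟩
  have hX3 : (3 : ℝ) ≤ X := by exact_mod_cast hX
  have hX0 : (0 : ℝ) < X := by linarith
  have hL1 : 1 < Real.log X := by
    rw [Real.lt_log_iff_exp_lt hX0]
    exact Real.exp_one_lt_three.trans_le hX3
  have hL : 0 < Real.log X := by linarith
  have hLL : 0 < Real.log (Real.log X) := Real.log_pos hL1
  have hq1 : 1 ≤ (Real.log X / Real.log (Real.log X)) ^ k := by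
    apply one_le_pow₀
    rw [le_div_iff₀ hLL, one_mul]
    have := Real.log_le_sub_one_of_pos hL
    linarith
  rcases lt_or_ge X N₀ with hlt | hge
  · refine ⟨KT.box M X, ?_, ?_⟩
    · have h2 : ((KT.box M X).card : ℝ) ≤ (box M N₀).card := by
        have h3 : (X : ℤ) ^ M ≤ (N₀ : ℤ) ^ M :=
          pow_le_pow_left₀ (by positivity) (by exact_mod_cast hlt.le) M
        have h4 : X ^ M ≤ N₀ ^ M := Nat.pow_le_pow_left hlt.le M
        have : KT.box M X ⊆ box M N₀ := by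
          unfold KT.box
          apply Finset.product_subset_product
          · exact Finset.Icc_subset_Icc (by linarith) h3
          · exact Finset.Icc_subset_Icc le_rfl h4
        exact_mod_cast Finset.card_le_card this
      calc ((KT.box M X).card : ℝ) ≤ (box M N₀).card * 1 := by rw [mul_one]; exact h2
        _ ≤ (box M N₀).card * (Real.log X / Real.log (Real.log X)) ^ k := by gcongr
        _ ≤ _ := by
            gcongr
            exact le_max_right _ _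
    · intro S hS hSH
      exfalso
      have hne : S.Nonempty := by
        rw [← Finset.card_pos, hS.sys.card]
        omega
      obtain ⟨L, hL'⟩ := hne
      exact Finset.disjoint_left.1 hSH hL' (mem_box (hS.sys.fo L hL'))
  · obtain ⟨H, hH1, hH2⟩ := H2 X hge A hA hAc
    refine ⟨H, hH1.trans ?_, hH2⟩
    gcongr
    exact le_max_left _ _

/-- **sharpness of the number of exceptions** -/
theorem sharpI (hUBSI : St_UBSI) (hVLBK : St_VLBK) (k M t r : ℕ) (hk : 1 ≤ k) (hr : 1 ≤ r) (η : ℝ)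
    (hη : 0 < η) :
    ∃ (c' : ℝ) (X₀ : ℕ), 0 < c' ∧ ∀ X : ℕ, X₀ ≤ X → ∀ 𝒮 : Finset (Finset (ℤ × ℕ)),
      (∀ S ∈ 𝒮, SysK k M X S) →
      (𝒮.card : ℝ) ≤ c' * (Real.log X / Real.log (Real.log X)) ^ k →
      ∃ A : Finset ℕ, (∀ p ∈ A, 1 ≤ p ∧ p ≤ X) ∧ (1 - η) * X ≤ A.card ∧
        ∀ S ∈ 𝒮, G3 A X t r S = ∅ := by
  classical
  have hr0 : (0 : ℝ) < r := by exact_mod_cast hr
  set ε₁ : ℝ := 1 / (r + 1) with hε₁
  have hε0 : 0 < ε₁ := by positivity
  have hε1 : ε₁ ≤ 1 := by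
    rw [hε₁, div_le_one (by positivity)]
    linarith
  have hεr : ε₁ ≤ 1 / r := by
    rw [hε₁]
    exact one_div_le_one_div_of_le hr0 (by linarith)
  obtain ⟨C, N₁, hC, hU⟩ := hUBSI k M (t + 2) hk (by omega) ε₁ hε0 hε1
  obtain ⟨c₂, hc₂, hV⟩ := hVLBK k hk
  obtain ⟨N₂, hN₂⟩ := hV M (t + 2) (by omega) ε₁ hε0 hε1
  set W : ℝ := C * (1 / c₂ * (((t + 2 : ℕ) : ℝ) / ε₁) ^ k) with hW
  have hW0 : 0 < W := by positivity
  refine ⟨η / W, max (max N₁ N₂) 3, by positivity, ?_⟩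
  intro X hX 𝒮 h𝒮 hc
  have hXN₁ : N₁ ≤ X := ((le_max_left _ _).trans (le_max_left _ _)).trans hX
  have hXN₂ : N₂ ≤ X := ((le_max_right _ _).trans (le_max_left _ _)).trans hX
  have hX3' : 3 ≤ X := (le_max_right _ _).trans hX
  have hX3 : (3 : ℝ) ≤ X := by exact_mod_cast hX3'
  have hX0 : (0 : ℝ) < X := by linarith
  have hL1 : 1 < Real.log X := by
    rw [Real.lt_log_iff_exp_lt hX0]
    exact Real.exp_one_lt_three.trans_le hX3
  have hL : 0 < Real.log X := by linarith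
  have hLL : 0 < Real.log (Real.log X) := Real.log_pos hL1
  -- the removed primes
  set G : Finset (ℤ × ℕ) → Finset ℕ := fun S => (Icc 1 X).filter (fun p : ℕ =>
    xx (PK X (t + 2) ε₁ S) (Fp S p) = 1) with hG
  have hGc : ∀ S ∈ 𝒮, ((G S).card : ℝ) ≤ W * X *
      (Real.log (Real.log X) / Real.log X) ^ k := by
    intro S hS
    obtain ⟨L, hLS⟩ : S.Nonempty := by
      rw [← Finset.card_pos, (h𝒮 S hS).sys.card]
      omega
    have h1 := hU X hXN₁ S (h𝒮 S hS) L hLS 1 le_rfl (by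
        push_cast
        exact Real.one_le_rpow (by linarith) (by norm_num)) (by simp)
    have h4 := (hN₂ X hXN₂).2.1
    have h5 : ((G S).card : ℝ) ≤ C * X * Vk k (P1 X (t + 2) ε₁) := by
      rw [show ((1 : ℕ) : ℝ) = 1 from Nat.cast_one, div_one] at h1
      refine le_trans (le_of_eq ?_) h1
      congr 2
      apply Finset.filter_congr
      intro p _
      push_cast
      simp
    refine h5.trans ?_
    calc C * X * Vk k (P1 X (t + 2) ε₁)
        ≤ C * X * (1 / c₂ *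
          (((t + 2 : ℕ) : ℝ) * Real.log (Real.log X) / (ε₁ * Real.log X)) ^ k) := by gcongr
      _ = _ := by
          have hb : ((t + 2 : ℕ) : ℝ) * Real.log (Real.log X) / (ε₁ * Real.log X) =
              ((t + 2 : ℕ) : ℝ) / ε₁ * (Real.log (Real.log X) / Real.log X) := by
            rw [div_mul_div_comm]
          rw [hW, hb, mul_pow]
          ring
  refine ⟨(Icc 1 X).filter (fun p => ∀ S ∈ 𝒮, p ∉ G S), ?_, ?_, ?_⟩
  · intro p hp
    rw [mem_filter, mem_Icc] at hp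
    exact hp.1
  · have h1 := Finset.card_filter_add_card_filter_not (s := Icc 1 X)
      (fun p => ∀ S ∈ 𝒮, p ∉ G S)
    have h2 : ((Icc 1 X).filter (fun p => ¬ ∀ S ∈ 𝒮, p ∉ G S)).card ≤
        ∑ S ∈ 𝒮, (G S).card := by
      refine (Finset.card_le_card ?_).trans Finset.card_biUnion_le
      intro p hp
      rw [mem_filter] at hp
      rw [mem_biUnion]
      by_contra hcon
      exact hp.2 (fun S hS hpS => hcon ⟨S, hS, hpS⟩)
    have h3 : (∑ S ∈ 𝒮, ((G S).card : ℝ)) ≤ η * X := by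
      calc (∑ S ∈ 𝒮, ((G S).card : ℝ)) ≤ ∑ _S ∈ 𝒮, W * X *
            (Real.log (Real.log X) / Real.log X) ^ k := Finset.sum_le_sum hGc
        _ = 𝒮.card * (W * X * (Real.log (Real.log X) / Real.log X) ^ k) := by
            rw [Finset.sum_const, nsmul_eq_mul]
        _ ≤ (η / W * (Real.log X / Real.log (Real.log X)) ^ k) *
            (W * X * (Real.log (Real.log X) / Real.log X) ^ k) := by gcongr
        _ = η * X := by
            rw [div_pow, div_pow]
            field_simp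
    have h4 : (X : ℝ) = ((Icc 1 X).filter (fun p => ∀ S ∈ 𝒮, p ∉ G S)).card +
        ((Icc 1 X).filter (fun p => ¬ ∀ S ∈ 𝒮, p ∉ G S)).card := by
      rw [Nat.card_Icc, Nat.add_sub_cancel] at h1
      exact_mod_cast h1.symm
    have h5 : (((Icc 1 X).filter (fun p => ¬ ∀ S ∈ 𝒮, p ∉ G S)).card : ℝ) ≤
        ∑ S ∈ 𝒮, ((G S).card : ℝ) := by exact_mod_cast h2
    linarith
  · intro S hS
    unfold G3
    rw [Finset.filter_eq_empty_iff]
    intro p hpA hgood
    rw [mem_filter] at hpA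
    apply hpA.2 S hS
    rw [hG]
    simp only
    rw [mem_filter]
    refine ⟨hpA.1, ?_⟩
    unfold xx
    rw [if_pos]
    intro l hl hld
    obtain ⟨hlP, -⟩ := mem_PK.1 hl
    obtain ⟨⟨hl1, hl2⟩, hlp, hl3, hl4⟩ := mem_P1.1 hlP
    unfold Fp at hld
    obtain ⟨L, hLS, hlL⟩ := (Nat.prime_iff_prime_int.1 hlp).exists_mem_finset_dvd hld
    obtain ⟨m, s, e1, e2, e3, e4, e5, e6⟩ := hgood L hLS
    have hln : l ∣ m * s := by
      rw [← e1]
      exact Int.natCast_dvd.1 hlL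
    rcases (hlp.dvd_mul).1 hln with h | h
    · have h1 : l ≤ m := Nat.le_of_dvd (by omega) h
      have h2 : (l : ℝ) ≤ Real.log X ^ t := le_trans (by exact_mod_cast h1) e3
      have h3 : Real.log X ^ t < Real.log X ^ (t + 2) := pow_lt_pow_right₀ hL1 (by omega)
      linarith
    · have h1 := e6 l (Nat.mem_primeFactors.2 ⟨hlp, h, by omega⟩)
      have h2 := (tt_lt_iff (by omega : 2 ≤ X) hlp.pos _).1 hl4
      have h3 : (X : ℝ) ^ ε₁ ≤ (X : ℝ) ^ (1 / r : ℝ) :=
        Real.rpow_le_rpow_of_exponent_le (by linarith) hεr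
      linarith

/-- **the upper bound of the same order** -/
theorem upperI (hUBSI : St_UBSI) (hVLBK : St_VLBK) (k M t r : ℕ) (hk : 1 ≤ k) (hr : 1 ≤ r) :
    ∃ (C : ℝ) (X₀ : ℕ), 0 < C ∧ ∀ X : ℕ, X₀ ≤ X → ∀ S, SysK k M X S →
      ((G3 (Icc 1 X) X t r S).card : ℝ) ≤
        C * (Real.log (Real.log X) / Real.log X) ^ k * X := by
  classical
  have hr0 : (0 : ℝ) < r := by exact_mod_cast hr
  set ε₁ : ℝ := 1 / (r + 1) with hε₁
  have hε0 : 0 < ε₁ := by positivity
  have hε1 : ε₁ ≤ 1 := by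
    rw [hε₁, div_le_one (by positivity)]
    linarith
  have hεr : ε₁ ≤ 1 / r := by
    rw [hε₁]
    exact one_div_le_one_div_of_le hr0 (by linarith)
  obtain ⟨C, N₁, hC, hU⟩ := hUBSI k M (t + 2) hk (by omega) ε₁ hε0 hε1
  obtain ⟨c₂, hc₂, hV⟩ := hVLBK k hk
  obtain ⟨N₂, hN₂⟩ := hV M (t + 2) (by omega) ε₁ hε0 hε1
  set W : ℝ := C * (1 / c₂ * (((t + 2 : ℕ) : ℝ) / ε₁) ^ k) with hW
  have hW0 : 0 < W := by positivity
  refine ⟨W, max (max N₁ N₂) 3, hW0, ?_⟩
  intro X hX S hS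
  have hXN₁ : N₁ ≤ X := ((le_max_left _ _).trans (le_max_left _ _)).trans hX
  have hXN₂ : N₂ ≤ X := ((le_max_right _ _).trans (le_max_left _ _)).trans hX
  have hX3' : 3 ≤ X := (le_max_right _ _).trans hX
  have hX3 : (3 : ℝ) ≤ X := by exact_mod_cast hX3'
  have hX0 : (0 : ℝ) < X := by linarith
  have hL1 : 1 < Real.log X := by
    rw [Real.lt_log_iff_exp_lt hX0]
    exact Real.exp_one_lt_three.trans_le hX3
  have hL : 0 < Real.log X := by linarith
  have hLL : 0 < Real.log (Real.log X) := Real.log_pos hL1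
  obtain ⟨L, hLS⟩ : S.Nonempty := by
    rw [← Finset.card_pos, hS.sys.card]
    omega
  have h1 := hU X hXN₁ S hS L hLS 1 le_rfl (by
      push_cast
      exact Real.one_le_rpow (by linarith) (by norm_num)) (by simp)
  have h4 := (hN₂ X hXN₂).2.1
  rw [show ((1 : ℕ) : ℝ) = 1 from Nat.cast_one, div_one] at h1
  have h5 : ((G3 (Icc 1 X) X t r S).card : ℝ) ≤
      C * X * Vk k (P1 X (t + 2) ε₁) := by
    refine le_trans ?_ h1
    refine Nat.cast_le.2 (Finset.card_le_card ?_)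
    intro p hp
    have h7 := G3_xx hX3' hεr hp
    unfold G3 at hp
    rw [mem_filter] at hp
    rw [mem_filter]
    refine ⟨hp.1, by simp, h7⟩
  refine h5.trans ?_
  calc C * X * Vk k (P1 X (t + 2) ε₁)
      ≤ C * X * (1 / c₂ *
        (((t + 2 : ℕ) : ℝ) * Real.log (Real.log X) / (ε₁ * Real.log X)) ^ k) := by gcongr
    _ = _ := by
        have hb : ((t + 2 : ℕ) : ℝ) * Real.log (Real.log X) / (ε₁ * Real.log X) =
            ((t + 2 : ℕ) : ℝ) / ε₁ * (Real.log (Real.log X) / Real.log X) := by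
          rw [div_mul_div_comm]
        rw [hW, hb, mul_pow]
        ring

end Pool.Agent.W23.KI
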