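import Pool.Agent.W23.KI.All

/-!
KI project (helper23): dense subsets of short intervals.
-/

namespace Pool.Agent.W23.KI

open Finset Filter
open Pool.Agent.W23.KT
open Pool.Agent.W23.KS

/-- shift of the base point of the forms -/
def shf (y : ℤ) (S : Finset (ℤ × ℕ)) : Finset (ℤ × ℕ) := S.image (fun L => (L.1 + L.2 * y, L.2))

theorem shf_inj (y : ℤ) : Function.Injective (fun L : ℤ × ℕ => (L.1 + L.2 * y, L.2)) := by
  rintro ⟨a, b⟩ ⟨a', b'⟩ h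
  simp only [Prod.mk.injEq] at h
  obtain ⟨h1, h2⟩ := h
  subst h2
  simp only [Prod.mk.injEq, and_true]
  omega

theorem exists_base (S : Finset (ℤ × ℕ)) (k : ℕ) (hS : S.card = k) (hb : ∀ L ∈ S, 1 ≤ L.2) (y : ℤ) :
    ∃ j : ℕ, j ≤ k ∧ ∀ L ∈ S, L.1 + L.2 * (y - j) ≠ 0 := by
  classical
  by_contra hcon
  push Not at hcon
  have h1 : ∀ j ∈ range (k + 1), ∃ L ∈ S, L.1 + L.2 * (y - (j : ℤ)) = 0 := fun j hj =>
    hcon j (by have := mem_range.1 hj; omega)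
  choose! g hg using h1
  have h2 : Set.InjOn g (range (k + 1) : Set ℕ) := by
    intro a ha b hb' hab
    have e1 := hg a ha
    have e2 := hg b hb'
    rw [← hab] at e2
    have e3 := hb _ e1.1
    have e4 : ((g a).2 : ℤ) * ((a : ℤ) - b) = 0 := by linarith [e1.2, e2.2]
    rcases mul_eq_zero.1 e4 with h | h
    · have : (g a).2 = 0 := by exact_mod_cast h
      omega
    · omega
  have h3 := card_le_card_of_injOn g (fun j hj => (hg j hj).1) h2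
  rw [card_range, hS] at h3
  omega

theorem mono_uv {u v : ℝ} (hu : Real.exp 1 ≤ u) (huv : u ≤ v) : u / Real.log u ≤ v / Real.log v ∧
    Real.log v / v ≤ Real.log u / u := by
  have hu0 : 0 < u := lt_of_lt_of_le (Real.exp_pos 1) hu
  have hv0 : 0 < v := lt_of_lt_of_le hu0 huv
  have h1 : Real.log v / v ≤ Real.log u / u := Real.log_div_self_antitoneOn hu (hu.trans huv) huv
  have hlu : 0 < Real.log u := by
    have := Real.add_one_le_exp (1 : ℝ)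
    exact Real.log_pos (by linarith)
  have hlv : 0 < Real.log v := by
    have := Real.add_one_le_exp (1 : ℝ)
    exact Real.log_pos (by linarith)
  refine ⟨?_, h1⟩
  rw [div_le_div_iff₀ hv0 hu0] at h1
  rw [div_le_div_iff₀ hlu hlv]
  linarith

/-- the length -/
noncomputable def XX (k : ℕ) (ε x : ℝ) : ℕ := ⌊x ^ ε⌋₊ + 1 + k

/-- everything needed about the sizes -/
structure Siz (k M' : ℕ) (ε x : ℝ) : Prop where
  x1 : 3 ≤ x
  X3 : 3 ≤ XX k ε x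
  Xle : (XX k ε x : ℝ) ≤ x
  Xge : x ^ ε ≤ (XX k ε x : ℝ)
  X2 : (XX k ε x : ℝ) ≤ 2 * x ^ ε
  lX : Real.exp 1 ≤ Real.log (XX k ε x)
  lX1 : ε * Real.log x ≤ Real.log (XX k ε x)
  lX2 : Real.log (XX k ε x) ≤ Real.log x
  sq : Real.log x ≤ Real.log (XX k ε x) ^ 2
  xe : (k : ℝ) + 1 ≤ x ^ ε
  xe1 : x ^ ε + k + 2 ≤ x

theorem siz (k M' : ℕ) (ε : ℝ) (hε : 0 < ε) (hε1 : ε < 1) : ∃ x₀ : ℝ, 3 ≤ x₀ ∧ ∀ x : ℝ, x₀ ≤ x → Siz k M' ε x := by
  have t1 : Tendsto (fun x : ℝ => x ^ ε) atTop atTop := tendsto_rpow_atTop hε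
  have t2 : Tendsto (fun x : ℝ => x ^ (1 - ε)) atTop atTop := tendsto_rpow_atTop (by linarith)
  have e1 : ∀ᶠ x : ℝ in atTop, (k : ℝ) + 3 ≤ x ^ ε := t1.eventually_ge_atTop _
  have e2 : ∀ᶠ x : ℝ in atTop, 3 ≤ x ^ (1 - ε) := t2.eventually_ge_atTop _
  have e3 : ∀ᶠ x : ℝ in atTop, max (Real.exp 1 / ε) (1 / ε ^ 2) ≤ Real.log x :=
    Real.tendsto_log_atTop.eventually_ge_atTop _
  have e4 : ∀ᶠ x : ℝ in atTop, (3 : ℝ) ≤ x := eventually_ge_atTop 3
  obtain ⟨x₀, h₀⟩ := eventually_atTop.1 (e1.and (e2.and (e3.and e4)))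
  refine ⟨max x₀ 3, le_max_right _ _, fun x hx => ?_⟩
  obtain ⟨h1, h2, h3, h4⟩ := h₀ x ((le_max_left _ _).trans hx)
  have hx0 : 0 < x := by linarith
  have hxe : 0 < x ^ ε := Real.rpow_pos_of_pos hx0 _
  have hfl := Nat.floor_le hxe.le
  have hfl2 := Nat.lt_floor_add_one (x ^ ε)
  have hXge : x ^ ε ≤ (XX k ε x : ℝ) := by
    unfold XX; push_cast; linarith [Nat.cast_nonneg (α := ℝ) k]
  have hX2 : (XX k ε x : ℝ) ≤ 2 * x ^ ε := by
    unfold XX; push_cast; linarith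
  have hprod : x ^ ε * x ^ (1 - ε) = x := by
    rw [← Real.rpow_add hx0]; simp
  have hx3 : 3 * x ^ ε ≤ x := by
    have : x ^ ε * 3 ≤ x ^ ε * x ^ (1 - ε) := mul_le_mul_of_nonneg_left h2 hxe.le
    rw [hprod] at this
    linarith
  have hXle : (XX k ε x : ℝ) ≤ x := by linarith
  have hX3 : 3 ≤ XX k ε x := by
    have : (3 : ℝ) ≤ (XX k ε x : ℝ) := by linarith [Nat.cast_nonneg (α := ℝ) k]
    exact_mod_cast this
  have hXpos : (0 : ℝ) < (XX k ε x : ℝ) := by linarith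
  have hl1 : ε * Real.log x ≤ Real.log (XX k ε x) := by
    have := Real.log_le_log hxe hXge
    rwa [Real.log_rpow hx0] at this
  have hl2 : Real.log (XX k ε x) ≤ Real.log x := Real.log_le_log hXpos hXle
  have ha : Real.exp 1 / ε ≤ Real.log x := (le_max_left _ _).trans h3
  have hb : 1 / ε ^ 2 ≤ Real.log x := (le_max_right _ _).trans h3
  have hlx : 0 < Real.log x := lt_of_lt_of_le (by positivity) ha
  refine ⟨h4, hX3, hXle, hXge, hX2, ?_, hl1, hl2, ?_, by linarith, by linarith⟩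
  · rw [div_le_iff₀ hε] at ha
    linarith
  · rw [div_le_iff₀ (by positivity)] at hb
    calc Real.log x = 1 * Real.log x := (one_mul _).symm
      _ ≤ (Real.log x * ε ^ 2) * Real.log x := mul_le_mul_of_nonneg_right hb hlx.le
      _ = (ε * Real.log x) ^ 2 := by ring
      _ ≤ _ := pow_le_pow_left₀ (by positivity) hl1 2

/-- systems of `k` forms of height `x^M` -/
structure SysX (k M : ℕ) (x : ℝ) (S : Finset (ℤ × ℕ)) : Prop where
  card : S.card = k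
  a : ∀ L ∈ S, |(L.1 : ℝ)| ≤ x ^ M
  b1 : ∀ L ∈ S, 1 ≤ L.2
  b2 : ∀ L ∈ S, (L.2 : ℝ) ≤ x ^ M
  cop : ∀ L ∈ S, Int.gcd L.1 L.2 = 1

theorem sys_shf {k M : ℕ} {ε x : ℝ} (hε : 0 < ε) (h : Siz k ⌈((M : ℝ) + 2) / ε⌉₊ ε x) {S : Finset (ℤ × ℕ)}
    (hS : SysX k M x S) {y : ℤ} (hy0 : 0 ≤ y) (hy : (y : ℝ) ≤ x) (hnz : ∀ L ∈ S, L.1 + L.2 * y ≠ 0) :
    SysK k ⌈((M : ℝ) + 2) / ε⌉₊ (XX k ε x) (shf y S) := by
  have hx0 : 0 < x := by linarith [h.x1]
  have hx1 : 1 ≤ x := by linarith [h.x1]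
  have hbig : x ^ (M + 2) ≤ (XX k ε x : ℝ) ^ ⌈((M : ℝ) + 2) / ε⌉₊ := by
    have hxe : 1 ≤ x ^ ε := Real.one_le_rpow hx1 hε.le
    calc x ^ (M + 2) = x ^ (((M + 2 : ℕ) : ℝ)) := (Real.rpow_natCast _ _).symm
      _ = (x ^ ε) ^ (((M : ℝ) + 2) / ε) := by
          rw [← Real.rpow_mul hx0.le]; congr 1; push_cast; field_simp
      _ ≤ (x ^ ε) ^ ((⌈((M : ℝ) + 2) / ε⌉₊ : ℕ) : ℝ) := Real.rpow_le_rpow_of_exponent_le hxe (Nat.le_ceil _)
      _ = (x ^ ε) ^ ⌈((M : ℝ) + 2) / ε⌉₊ := Real.rpow_natCast _ _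
      _ ≤ _ := pow_le_pow_left₀ (by positivity) h.Xge _
  have hpow : x ^ M ≤ x ^ (M + 2) := pow_le_pow_right₀ hx1 (by omega)
  have hy0r : (0 : ℝ) ≤ y := by exact_mod_cast hy0
  refine ⟨⟨?_, ?_⟩, ?_⟩
  · unfold shf
    rw [card_image_of_injective _ (shf_inj y), hS.card]
  · intro L' hL'
    unfold shf at hL'
    rw [mem_image] at hL'
    obtain ⟨L, hL, rfl⟩ := hL'
    refine ⟨?_, hS.b1 L hL, (hS.b2 L hL).trans (hpow.trans hbig), ?_⟩
    · simp only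
      push_cast
      have h1 : |(L.1 : ℝ) + L.2 * y| ≤ |(L.1 : ℝ)| + |(L.2 : ℝ) * y| := abs_add_le _ _
      have h2 : |(L.2 : ℝ) * y| ≤ x ^ M * x := by
        rw [abs_of_nonneg (by positivity)]
        exact mul_le_mul (hS.b2 L hL) hy hy0r (by positivity)
      have h3 := hS.a L hL
      have h4 : x ^ M + x ^ M * x ≤ x ^ (M + 2) := by
        rw [pow_add]
        have : (1 : ℝ) + x ≤ x ^ 2 := by nlinarith [h.x1]
        have hp : 0 < x ^ M := by positivity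
        nlinarith
      linarith
    · simp only
      rw [← Int.isCoprime_iff_gcd_eq_one]
      have h1 := (Int.isCoprime_iff_gcd_eq_one.2 (hS.cop L hL))
      exact IsCoprime.add_mul_left_left h1 y
  · intro L' hL'
    unfold shf at hL'
    rw [mem_image] at hL'
    obtain ⟨L, hL, rfl⟩ := hL'
    exact hnz L hL

end Pool.Agent.W23.KI
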