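import Pool.Agent.W23.KI.Short

/-!
KI project (helper23): dense subsets of short intervals, the theorems.
-/

namespace Pool.Agent.W23.KI

open Finset Filter
open Pool.Agent.W23.KT
open Pool.Agent.W23.KS

/-- `|N| = a s`, `1 ≤ a ≤ (log x)^t`, `s > 1` a product of at most `r` primes, each `≥ x^(1/r)` -/
def AlX (x : ℝ) (t r : ℕ) (N : ℤ) : Prop :=
  ∃ a s : ℕ, N.natAbs = a * s ∧ 1 ≤ a ∧ (a : ℝ) ≤ Real.log x ^ t ∧ 1 < s ∧
    s.primeFactorsList.length ≤ r ∧ ∀ q : ℕ, q.Prime → q ∣ s → x ^ (1 / r : ℝ) ≤ q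

open Classical in
/-- the `n ∈ A` at which all forms are almost prime -/
noncomputable def gX (A : Finset ℕ) (x : ℝ) (t r : ℕ) (S : Finset (ℤ × ℕ)) : Finset ℕ :=
  A.filter (fun n : ℕ => ∀ L ∈ S, AlX x t r (L.1 + L.2 * (n : ℤ)))

theorem shf_val (y : ℤ) (L : ℤ × ℕ) (n : ℤ) : (L.1 + L.2 * y) + L.2 * (n - y) = L.1 + L.2 * n := by ring

open Classical in
/-- from the shifted set back -/
theorem gX_ge {k M' : ℕ} {ε x : ℝ} (hε : 0 < ε) (h : Siz k M' ε x) {t r r2 : ℕ} (hr : 1 ≤ r) (hr2 : (r : ℝ) / ε ≤ r2) (hrr : r ≤ r2)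
    (A : Finset ℕ) (y : ℕ) (hA : ∀ n ∈ A, y ≤ n) (S : Finset (ℤ × ℕ)) :
    (G3 (A.image (fun n => n - y)) (XX k ε x) t r (shf y S)).card ≤ (gX A x t r2 S).card := by
  have hx0 : 0 < x := by linarith [h.x1]
  have hx1 : 1 ≤ x := by linarith [h.x1]
  have hsub : G3 (A.image (fun n => n - y)) (XX k ε x) t r (shf y S) ⊆ (gX A x t r2 S).image (fun n => n - y) := by
    intro m hm
    unfold G3 at hm
    rw [mem_filter, mem_image] at hm
    obtain ⟨⟨n, hn, rfl⟩, hS⟩ := hm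
    rw [mem_image]
    refine ⟨n, ?_, rfl⟩
    unfold gX
    rw [mem_filter]
    refine ⟨hn, fun L hL => ?_⟩
    obtain ⟨a, s, h1, h2, h3, h4, h5, h6⟩ := hS (L.1 + L.2 * y, L.2) (by
      unfold shf
      exact mem_image_of_mem _ hL)
    have hcast : ((n - y : ℕ) : ℤ) = (n : ℤ) - y := by
      have := hA n hn
      omega
    simp only at h1
    rw [hcast, shf_val] at h1
    have hlog0 : 0 ≤ Real.log (XX k ε x) := (Real.exp_pos 1).le.trans h.lX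
    refine ⟨a, s, h1, h2, h3.trans (pow_le_pow_left₀ hlog0 h.lX2 t), h4, h5.trans hrr, fun q hq hqs => ?_⟩
    have hs0 : s ≠ 0 := by omega
    have h7 := h6 q (Nat.mem_primeFactors.2 ⟨hq, hqs, hs0⟩)
    refine le_trans ?_ h7
    have hr0 : (0 : ℝ) < r := by exact_mod_cast hr
    have hr20 : (0 : ℝ) < r2 := by exact_mod_cast (by omega : 0 < r2)
    calc x ^ (1 / r2 : ℝ) ≤ x ^ (ε * (1 / r) : ℝ) := by
          apply Real.rpow_le_rpow_of_exponent_le hx1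
          rw [mul_one_div, div_le_div_iff₀ hr20 hr0, one_mul]
          rw [div_le_iff₀ hε] at hr2
          linarith
      _ = (x ^ ε) ^ (1 / r : ℝ) := Real.rpow_mul hx0.le _ _
      _ ≤ (XX k ε x : ℝ) ^ (1 / r : ℝ) := Real.rpow_le_rpow (by positivity) h.Xge (by positivity)
  exact (card_le_card hsub).trans card_image_le

open Classical in
/-- from the set to the shifted set -/
theorem gX_le {k M' : ℕ} {ε x : ℝ} (h : Siz k M' ε x) {t r : ℕ}
    (A : Finset ℕ) (y : ℕ) (hA : ∀ n ∈ A, y ≤ n) (S : Finset (ℤ × ℕ)) :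
    (gX A x t r S).image (fun n => n - y) ⊆ G3 (A.image (fun n => n - y)) (XX k ε x) (2 * t) r (shf y S) := by
  have hx0 : 0 < x := by linarith [h.x1]
  have hx1 : 1 ≤ x := by linarith [h.x1]
  intro m hm
  rw [mem_image] at hm
  obtain ⟨n, hn, rfl⟩ := hm
  unfold gX at hn
  rw [mem_filter] at hn
  unfold G3
  rw [mem_filter]
  refine ⟨mem_image_of_mem _ hn.1, fun L' hL' => ?_⟩
  unfold shf at hL'
  rw [mem_image] at hL'
  obtain ⟨L, hL, rfl⟩ := hL'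
  obtain ⟨a, s, h1, h2, h3, h4, h5, h6⟩ := hn.2 L hL
  have hcast : ((n - y : ℕ) : ℤ) = (n : ℤ) - y := by
    have := hA n hn.1
    omega
  have hlog0 : 0 ≤ Real.log x := Real.log_nonneg hx1
  refine ⟨a, s, ?_, h2, ?_, h4, h5, fun q hq => ?_⟩
  · simp only
    rw [hcast, shf_val]
    exact h1
  · refine h3.trans ?_
    rw [pow_mul]
    exact pow_le_pow_left₀ hlog0 h.sq t
  · rw [Nat.mem_primeFactors] at hq
    refine le_trans ?_ (h6 q hq.1 hq.2.1)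
    exact Real.rpow_le_rpow (Nat.cast_nonneg _) h.Xle (by positivity)

/-- the base points -/
theorem base_facts {k M' : ℕ} {ε x : ℝ} (hε1 : ε < 1) (h : Siz k M' ε x) :
    (k : ℝ) ≤ x - x ^ ε - 1 ∧ ∀ j : ℕ, j ≤ k → ((⌊x - x ^ ε⌋₊ - j : ℕ) : ℤ) = (⌊x - x ^ ε⌋₊ : ℤ) - j ∧
      (((⌊x - x ^ ε⌋₊ - j : ℕ) : ℤ) : ℝ) ≤ x ∧
      ∀ n : ℕ, x - x ^ ε < n → (n : ℝ) < x → ⌊x - x ^ ε⌋₊ - j < n ∧ n - (⌊x - x ^ ε⌋₊ - j) ≤ XX k ε x := by
  have h1 : (k : ℝ) ≤ x - x ^ ε - 1 := by linarith [h.xe1]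
  have hpos : 0 ≤ x - x ^ ε := by linarith [Nat.cast_nonneg (α := ℝ) k]
  have hxe : 0 ≤ x ^ ε := Real.rpow_nonneg (by linarith [h.x1]) _
  have hk : k ≤ ⌊x - x ^ ε⌋₊ := Nat.le_floor (by linarith)
  refine ⟨h1, fun j hj => ⟨by omega, ?_, fun n hn1 hn2 => ?_⟩⟩
  · have h2 : ((⌊x - x ^ ε⌋₊ - j : ℕ) : ℝ) ≤ (⌊x - x ^ ε⌋₊ : ℝ) := by exact_mod_cast Nat.sub_le _ _
    have h3 := Nat.floor_le hpos
    push_cast
    linarith
  · have h3 := Nat.floor_le hpos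
    have h4 := Nat.lt_floor_add_one (x - x ^ ε)
    have h5 : ⌊x - x ^ ε⌋₊ < n := by
      have : (⌊x - x ^ ε⌋₊ : ℝ) < n := by linarith
      exact_mod_cast this
    refine ⟨by omega, ?_⟩
    have h6 : n ≤ ⌊x - x ^ ε⌋₊ + ⌊x ^ ε⌋₊ + 1 := by
      have h7 := Nat.lt_floor_add_one (x ^ ε)
      have h8 : (n : ℝ) < ((⌊x - x ^ ε⌋₊ + ⌊x ^ ε⌋₊ + 2 : ℕ) : ℝ) := by push_cast; linarith
      have h9 : n < ⌊x - x ^ ε⌋₊ + ⌊x ^ ε⌋₊ + 2 := by exact_mod_cast h8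
      omega
    unfold XX
    omega

open Classical in
theorem short1 (ε : ℝ) (hε : 0 < ε) (hε1 : ε < 1) (k M : ℕ) (hk : 1 ≤ k) :
    ∃ r : ℕ, 1 ≤ r ∧ ∀ δ : ℝ, 0 < δ → ∃ (c C : ℝ) (t : ℕ) (x₀ : ℝ), 0 < c ∧ ∀ x : ℝ, x₀ ≤ x →
      ∀ A : Finset ℕ, (∀ n ∈ A, x - x ^ ε < n ∧ (n : ℝ) < x) → δ * x ^ ε ≤ A.card →
      ∃ H : Finset (ℤ × ℕ), (H.card : ℝ) ≤ C * (Real.log x / Real.log (Real.log x)) ^ k ∧
        ∀ S, SysX k M x S → Disjoint S H →
          c * (Real.log (Real.log x) / Real.log x) ^ k * A.card ≤ ((gX A x t r S).card : ℝ) := by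
  set M' := ⌈((M : ℝ) + 2) / ε⌉₊ with hM'
  have hM'1 : 1 ≤ M' := Nat.one_le_iff_ne_zero.2 (by
    rw [hM']
    have : 0 < ((M : ℝ) + 2) / ε := by positivity
    exact (Nat.ceil_pos.2 this).ne')
  obtain ⟨r, hr, hmain⟩ := main_thm k M' hk hM'1
  refine ⟨max r ⌈(r : ℝ) / ε⌉₊, hr.trans (le_max_left _ _), fun δ hδ => ?_⟩
  obtain ⟨c, C, t, hc, H⟩ := hmain (δ / 2) (by positivity)
  obtain ⟨x₀, -, hx₀⟩ := siz k M' ε hε hε1
  refine ⟨c, (k + 1) * |C|, t, x₀, hc, fun x hx A hA hAc => ?_⟩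
  have hs := hx₀ x hx
  have hx0 : 0 < x := by linarith [hs.x1]
  obtain ⟨hkx, hbase⟩ := base_facts hε1 hs
  have hmono := mono_uv hs.lX hs.lX2
  have hA' : ∀ j : ℕ, j ≤ k → (∀ p ∈ A.image (fun n => n - (⌊x - x ^ ε⌋₊ - j)), 1 ≤ p ∧ p ≤ XX k ε x) := by
    intro j hj p hp
    rw [mem_image] at hp
    obtain ⟨n, hn, rfl⟩ := hp
    have h1 := (hbase j hj).2.2 n (hA n hn).1 (hA n hn).2
    omega
  have hAc' : ∀ j : ℕ, j ≤ k → (A.image (fun n => n - (⌊x - x ^ ε⌋₊ - j))).card = A.card := by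
    intro j hj
    apply card_image_of_injOn
    intro a ha b hb hab
    have h1 := (hbase j hj).2.2 a (hA a ha).1 (hA a ha).2
    have h2 := (hbase j hj).2.2 b (hA b hb).1 (hA b hb).2
    simp only at hab
    omega
  have hH : ∀ j : ℕ, ∃ Hj : Finset (ℤ × ℕ), j ≤ k → (Hj.card : ℝ) ≤ C * (Real.log (XX k ε x) / Real.log (Real.log (XX k ε x))) ^ k ∧
        ∀ S, SysK k M' (XX k ε x) S → Disjoint S Hj →
          c * (Real.log (Real.log (XX k ε x)) / Real.log (XX k ε x)) ^ k * A.card ≤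
            ((G3 (A.image (fun n => n - (⌊x - x ^ ε⌋₊ - j))) (XX k ε x) t r S).card : ℝ) := by
    intro j
    by_cases hj : j ≤ k
    · obtain ⟨Hj, h1, h2⟩ := H (XX k ε x) hs.X3 (A.image (fun n => n - (⌊x - x ^ ε⌋₊ - j))) (hA' j hj) (by
        rw [hAc' j hj]
        refine le_trans ?_ hAc
        have := hs.X2
        nlinarith)
      refine ⟨Hj, fun _ => ⟨h1, fun S hS hd => ?_⟩⟩
      have h3 := h2 S hS hd
      rwa [hAc' j hj] at h3
    · exact ⟨∅, fun h => absurd h hj⟩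
  choose Hj hHj using hH
  refine ⟨(range (k + 1)).biUnion (fun j => (Hj j).image (fun L => (L.1 - L.2 * ((⌊x - x ^ ε⌋₊ - j : ℕ) : ℤ), L.2))), ?_, ?_⟩
  · have h1 : (((range (k + 1)).biUnion (fun j => (Hj j).image (fun L => (L.1 - L.2 * ((⌊x - x ^ ε⌋₊ - j : ℕ) : ℤ), L.2)))).card : ℝ) ≤
        ∑ j ∈ range (k + 1), ((Hj j).card : ℝ) := by
      have h2 := card_biUnion_le (s := range (k + 1)) (t := fun j => (Hj j).image (fun L : ℤ × ℕ => (L.1 - L.2 * ((⌊x - x ^ ε⌋₊ - j : ℕ) : ℤ), L.2)))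
      have h3 : ∑ j ∈ range (k + 1), ((Hj j).image (fun L : ℤ × ℕ => (L.1 - L.2 * ((⌊x - x ^ ε⌋₊ - j : ℕ) : ℤ), L.2))).card ≤ ∑ j ∈ range (k + 1), (Hj j).card :=
        sum_le_sum fun j _ => card_image_le
      exact_mod_cast h2.trans h3
    refine h1.trans ?_
    have hlog0 : 0 < Real.log (XX k ε x) := lt_of_lt_of_le (Real.exp_pos 1) hs.lX
    have hll : 0 ≤ Real.log (Real.log (XX k ε x)) := Real.log_nonneg (by
      have := Real.add_one_le_exp (1 : ℝ)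
      linarith [hs.lX])
    have hq0 : 0 ≤ Real.log (XX k ε x) / Real.log (Real.log (XX k ε x)) := div_nonneg hlog0.le hll
    have h2 : ∀ j ∈ range (k + 1), ((Hj j).card : ℝ) ≤ |C| * (Real.log x / Real.log (Real.log x)) ^ k := by
      intro j hj
      have h3 := (hHj j (by have := mem_range.1 hj; omega)).1
      refine h3.trans ?_
      calc C * (Real.log (XX k ε x) / Real.log (Real.log (XX k ε x))) ^ k ≤ |C| * (Real.log (XX k ε x) / Real.log (Real.log (XX k ε x))) ^ k :=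
            mul_le_mul_of_nonneg_right (le_abs_self C) (pow_nonneg hq0 _)
        _ ≤ _ := mul_le_mul_of_nonneg_left (pow_le_pow_left₀ hq0 hmono.1 k) (abs_nonneg _)
    refine (sum_le_sum h2).trans (le_of_eq ?_)
    rw [sum_const, card_range, nsmul_eq_mul]
    push_cast
    ring
  · intro S hS hd
    obtain ⟨j, hj, hnz⟩ := exists_base S k hS.card hS.b1 (⌊x - x ^ ε⌋₊ : ℤ)
    have hcast := (hbase j hj).1
    have hsys : SysK k M' (XX k ε x) (shf ((⌊x - x ^ ε⌋₊ - j : ℕ) : ℤ) S) := by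
      apply sys_shf hε hs hS (Int.natCast_nonneg _) (hbase j hj).2.1
      intro L hL
      rw [hcast]
      exact hnz L hL
    have hdis : Disjoint (shf ((⌊x - x ^ ε⌋₊ - j : ℕ) : ℤ) S) (Hj j) := by
      rw [Finset.disjoint_left]
      intro L' hL' hLH
      unfold shf at hL'
      rw [mem_image] at hL'
      obtain ⟨L, hL, rfl⟩ := hL'
      apply (Finset.disjoint_left.1 hd) hL
      rw [mem_biUnion]
      refine ⟨j, mem_range.2 (by omega), ?_⟩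
      rw [mem_image]
      refine ⟨_, hLH, ?_⟩
      apply Prod.ext
      · simp only; ring
      · rfl
    have h1 := (hHj j hj).2 _ hsys hdis
    have h2 := gX_ge (t := t) (r := r) (r2 := max r ⌈(r : ℝ) / ε⌉₊) hε hs hr (by
        refine (Nat.le_ceil _).trans ?_
        exact_mod_cast le_max_right _ _) (le_max_left _ _) A (⌊x - x ^ ε⌋₊ - j) (fun n hn =>
          ((hbase j hj).2.2 n (hA n hn).1 (hA n hn).2).1.le) S
    have h3 : ((G3 (A.image (fun n => n - (⌊x - x ^ ε⌋₊ - j))) (XX k ε x) t r (shf ((⌊x - x ^ ε⌋₊ - j : ℕ) : ℤ) S)).card : ℝ) ≤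
        ((gX A x t (max r ⌈(r : ℝ) / ε⌉₊) S).card : ℝ) := by exact_mod_cast h2
    refine le_trans ?_ (h1.trans h3)
    apply mul_le_mul_of_nonneg_right _ (Nat.cast_nonneg _)
    apply mul_le_mul_of_nonneg_left _ hc.le
    apply pow_le_pow_left₀ _ hmono.2
    have hlx : 0 < Real.log x := lt_of_lt_of_le (Real.exp_pos 1) (hs.lX.trans hs.lX2)
    apply div_nonneg (Real.log_nonneg _) hlx.le
    have := Real.add_one_le_exp (1 : ℝ)
    linarith [hs.lX, hs.lX2]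

end Pool.Agent.W23.KI
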