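import Pool.Agent.W23.KI.Short2

/-!
KI project (helper23): dense subsets of short intervals, upper bound and sharpness.
-/

namespace Pool.Agent.W23.KI

open Finset Filter
open Pool.Agent.W23.KT
open Pool.Agent.W23.KS

theorem big_X (ε : ℝ) (hε : 0 < ε) (X₀ : ℕ) : ∃ x₁ : ℝ, ∀ x : ℝ, x₁ ≤ x → (X₀ : ℝ) ≤ x ^ ε := by
  have t1 : Tendsto (fun x : ℝ => x ^ ε) atTop atTop := tendsto_rpow_atTop hε
  obtain ⟨x₁, h⟩ := eventually_atTop.1 (t1.eventually_ge_atTop (X₀ : ℝ))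
  exact ⟨x₁, h⟩

theorem ratio_facts {k M' : ℕ} {ε x : ℝ} (hε : 0 < ε) (h : Siz k M' ε x) :
    0 < Real.log x ∧ 0 < Real.log (Real.log x) ∧
    0 ≤ Real.log (Real.log (XX k ε x)) / Real.log (XX k ε x) ∧
    Real.log (Real.log (XX k ε x)) / Real.log (XX k ε x) ≤ (1 / ε) * (Real.log (Real.log x) / Real.log x) ∧
    ε * (Real.log x / Real.log (Real.log x)) ≤ Real.log (XX k ε x) / Real.log (Real.log (XX k ε x)) := by
  have hlX : 0 < Real.log (XX k ε x) := lt_of_lt_of_le (Real.exp_pos 1) h.lX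
  have hlx : 0 < Real.log x := lt_of_lt_of_le (Real.exp_pos 1) (h.lX.trans h.lX2)
  have he : (1 : ℝ) < Real.exp 1 := by have := Real.add_one_lt_exp (one_ne_zero : (1 : ℝ) ≠ 0); linarith
  have hllX : 0 < Real.log (Real.log (XX k ε x)) := Real.log_pos (by linarith [h.lX])
  have hllx : 0 < Real.log (Real.log x) := Real.log_pos (by linarith [h.lX, h.lX2])
  have hll : Real.log (Real.log (XX k ε x)) ≤ Real.log (Real.log x) := Real.log_le_log hlX h.lX2
  refine ⟨hlx, hllx, by positivity, ?_, ?_⟩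
  · rw [div_mul_div_comm, one_mul]
    rw [div_le_div_iff₀ hlX (by positivity)]
    exact mul_le_mul hll h.lX1 (by positivity) hllx.le
  · rw [mul_div_assoc']
    rw [div_le_div_iff₀ hllx hllX]
    exact mul_le_mul h.lX1 hll hllX.le hlX.le

open Classical in
theorem short2 (ε : ℝ) (hε : 0 < ε) (hε1 : ε < 1) (k M : ℕ) (hk : 1 ≤ k) (t r : ℕ) (hr : 1 ≤ r) :
    ∃ (C : ℝ) (x₀ : ℝ), ∀ x : ℝ, x₀ ≤ x →
      ∀ A : Finset ℕ, (∀ n ∈ A, x - x ^ ε < n ∧ (n : ℝ) < x) →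
      ∀ S, SysX k M x S →
        ((gX A x t r S).card : ℝ) ≤ C * (Real.log (Real.log x) / Real.log x) ^ k * x ^ ε := by
  set M' := ⌈((M : ℝ) + 2) / ε⌉₊ with hM'
  obtain ⟨C, X₀, hC, hup⟩ := upper_thm k M' (2 * t) r hk hr
  obtain ⟨x₀, -, hx₀⟩ := siz k M' ε hε hε1
  obtain ⟨x₁, hx₁⟩ := big_X ε hε X₀
  refine ⟨C * (1 / ε) ^ k * 2, max x₀ x₁, fun x hx A hA S hS => ?_⟩
  have hs := hx₀ x ((le_max_left _ _).trans hx)
  have hX : X₀ ≤ XX k ε x := by
    have := (hx₁ x ((le_max_right _ _).trans hx)).trans hs.Xge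
    exact_mod_cast this
  obtain ⟨hkx, hbase⟩ := base_facts hε1 hs
  obtain ⟨hlx, hllx, hq0, hq1, hq2⟩ := ratio_facts hε hs
  obtain ⟨j, hj, hnz⟩ := exists_base S k hS.card hS.b1 (⌊x - x ^ ε⌋₊ : ℤ)
  have hcast := (hbase j hj).1
  have hsys : SysK k M' (XX k ε x) (shf ((⌊x - x ^ ε⌋₊ - j : ℕ) : ℤ) S) := by
    apply sys_shf hε hs hS (Int.natCast_nonneg _) (hbase j hj).2.1
    intro L hL
    rw [hcast]
    exact hnz L hL
  have h1 := gX_le (t := t) (r := r) hs A (⌊x - x ^ ε⌋₊ - j) (fun n hn =>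
          ((hbase j hj).2.2 n (hA n hn).1 (hA n hn).2).1.le) S
  have h2 : G3 (A.image (fun n => n - (⌊x - x ^ ε⌋₊ - j))) (XX k ε x) (2 * t) r (shf ((⌊x - x ^ ε⌋₊ - j : ℕ) : ℤ) S) ⊆
      G3 (Icc 1 (XX k ε x)) (XX k ε x) (2 * t) r (shf ((⌊x - x ^ ε⌋₊ - j : ℕ) : ℤ) S) := by
    intro m hm
    unfold G3 at hm ⊢
    rw [mem_filter] at hm ⊢
    refine ⟨?_, hm.2⟩
    obtain ⟨n, hn, rfl⟩ := mem_image.1 hm.1
    have h1 := (hbase j hj).2.2 n (hA n hn).1 (hA n hn).2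
    rw [mem_Icc]
    omega
  have h3 : ((gX A x t r S).image (fun n => n - (⌊x - x ^ ε⌋₊ - j))).card = (gX A x t r S).card := by
    apply card_image_of_injOn
    intro a ha b hb hab
    have ha' : a ∈ A := (mem_filter.1 ha).1
    have hb' : b ∈ A := (mem_filter.1 hb).1
    have h1 := (hbase j hj).2.2 a (hA a ha').1 (hA a ha').2
    have h2 := (hbase j hj).2.2 b (hA b hb').1 (hA b hb').2
    simp only at hab
    omega
  have h4 := card_le_card (h1.trans h2)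
  rw [h3] at h4
  have h5 := hup (XX k ε x) hX _ hsys
  have h6 : ((gX A x t r S).card : ℝ) ≤ C * (Real.log (Real.log (XX k ε x)) / Real.log (XX k ε x)) ^ k * (XX k ε x) :=
    le_trans (by exact_mod_cast h4) h5
  refine h6.trans ?_
  have hxe : 0 ≤ x ^ ε := Real.rpow_nonneg (by linarith [hs.x1]) _
  calc C * (Real.log (Real.log (XX k ε x)) / Real.log (XX k ε x)) ^ k * (XX k ε x)
      ≤ C * ((1 / ε) * (Real.log (Real.log x) / Real.log x)) ^ k * (2 * x ^ ε) := by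
        apply mul_le_mul _ hs.X2 (Nat.cast_nonneg _) (by positivity)
        exact mul_le_mul_of_nonneg_left (pow_le_pow_left₀ hq0 hq1 k) hC.le
    _ = _ := by rw [mul_pow]; ring

open Classical in
theorem short3 (ε : ℝ) (hε : 0 < ε) (hε1 : ε < 1) (k M : ℕ) (hk : 1 ≤ k) (t r : ℕ) (hr : 1 ≤ r) (η : ℝ) (hη : 0 < η) :
    ∃ (c' : ℝ) (x₀ : ℝ), 0 < c' ∧ ∀ x : ℝ, x₀ ≤ x →
      ∀ 𝒮 : Finset (Finset (ℤ × ℕ)), (∀ S ∈ 𝒮, SysX k M x S) →
      (𝒮.card : ℝ) ≤ c' * (Real.log x / Real.log (Real.log x)) ^ k →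
      ∃ A : Finset ℕ, (∀ n ∈ A, x - x ^ ε < n ∧ (n : ℝ) < x) ∧ (1 - η) * x ^ ε ≤ A.card ∧
        ∀ S ∈ 𝒮, gX A x t r S = ∅ := by
  set M' := ⌈((M : ℝ) + 2) / ε⌉₊ with hM'
  set η' : ℝ := η / (4 * (k + 1)) with hη'
  have hη'0 : 0 < η' := by positivity
  obtain ⟨c', X₀, hc', hsh⟩ := sharp_thm k M' (2 * t) r hk hr η' hη'0
  obtain ⟨x₀, -, hx₀⟩ := siz k M' ε hε hε1
  obtain ⟨x₁, hx₁⟩ := big_X ε hε X₀
  obtain ⟨x₂, hx₂⟩ := big_X ε hε ⌈(4 * ((k : ℝ) + 3)) / η⌉₊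
  refine ⟨c' * ε ^ k, max x₀ (max x₁ x₂), by positivity, fun x hx 𝒮 hS hcard => ?_⟩
  have hs := hx₀ x ((le_max_left _ _).trans hx)
  have hX : X₀ ≤ XX k ε x := by
    have := (hx₁ x (((le_max_left _ _).trans (le_max_right _ _)).trans hx)).trans hs.Xge
    exact_mod_cast this
  have hbig : (4 * ((k : ℝ) + 3)) / η ≤ x ^ ε :=
    (Nat.le_ceil _).trans (hx₂ x (((le_max_right _ _).trans (le_max_right _ _)).trans hx))
  obtain ⟨hkx, hbase⟩ := base_facts hε1 hs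
  obtain ⟨hlx, hllx, hq0, hq1, hq2⟩ := ratio_facts hε hs
  set y0 : ℕ := ⌊x - x ^ ε⌋₊ with hy0
  have hx0 : 0 < x := by linarith [hs.x1]
  have hxe : 0 < x ^ ε := Real.rpow_pos_of_pos hx0 _
  -- the base of each system
  have hb : ∀ S : Finset (ℤ × ℕ), ∃ j : ℕ, S ∈ 𝒮 → j ≤ k ∧ ∀ L ∈ S, L.1 + L.2 * ((y0 : ℤ) - j) ≠ 0 := by
    intro S
    by_cases h : S ∈ 𝒮
    · obtain ⟨j, h1, h2⟩ := exists_base S k (hS S h).card (hS S h).b1 (y0 : ℤ)
      exact ⟨j, fun _ => ⟨h1, h2⟩⟩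
    · exact ⟨0, fun h' => absurd h' h⟩
  choose b hb using hb
  have hAj : ∀ j : ℕ, ∃ Aj : Finset ℕ, j ≤ k → (∀ p ∈ Aj, 1 ≤ p ∧ p ≤ XX k ε x) ∧ (1 - η') * (XX k ε x) ≤ Aj.card ∧
      ∀ S ∈ 𝒮, b S = j → G3 Aj (XX k ε x) (2 * t) r (shf ((y0 - j : ℕ) : ℤ) S) = ∅ := by
    intro j
    by_cases hj : j ≤ k
    · obtain ⟨Aj, h1, h2, h3⟩ := hsh (XX k ε x) hX ((𝒮.filter (fun S => b S = j)).image (shf ((y0 - j : ℕ) : ℤ))) (by
        intro S' hS'
        rw [mem_image] at hS'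
        obtain ⟨S, hSm, rfl⟩ := hS'
        rw [mem_filter] at hSm
        apply sys_shf hε hs (hS S hSm.1) (Int.natCast_nonneg _) (hbase j hj).2.1
        intro L hL
        rw [(hbase j hj).1, ← hSm.2]
        exact (hb S hSm.1).2 L hL) (by
        have h4 : ((𝒮.filter (fun S => b S = j)).image (shf ((y0 - j : ℕ) : ℤ))).card ≤ 𝒮.card :=
          card_image_le.trans (card_le_card (filter_subset _ _))
        have h5 : (((𝒮.filter (fun S => b S = j)).image (shf ((y0 - j : ℕ) : ℤ))).card : ℝ) ≤ 𝒮.card := by exact_mod_cast h4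
        refine h5.trans (hcard.trans ?_)
        rw [mul_assoc, ← mul_pow]
        apply mul_le_mul_of_nonneg_left _ hc'.le
        exact pow_le_pow_left₀ (by positivity) hq2 k)
      refine ⟨Aj, fun _ => ⟨h1, h2, fun S hSm hbS => h3 _ (mem_image_of_mem _ (mem_filter.2 ⟨hSm, hbS⟩))⟩⟩
    · exact ⟨∅, fun h => absurd h hj⟩
  choose Aj hAj using hAj
  -- the integers of the interval
  set I : Finset ℕ := (Icc 1 ⌈x⌉₊).filter (fun n : ℕ => x - x ^ ε < n ∧ (n : ℝ) < x) with hI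
  have hIcard : x ^ ε - 2 ≤ (I.card : ℝ) := by
    have hsub : Ioo ⌊x - x ^ ε⌋₊ ⌈x⌉₊ ⊆ I := by
      intro n hn
      rw [mem_Ioo] at hn
      rw [hI, mem_filter, mem_Icc]
      refine ⟨⟨by omega, hn.2.le⟩, ?_, ?_⟩
      · have h1 := Nat.lt_floor_add_one (x - x ^ ε)
        have h2 : ((⌊x - x ^ ε⌋₊ + 1 : ℕ) : ℝ) ≤ n := by exact_mod_cast hn.1
        push_cast at h2
        linarith
      · exact Nat.lt_ceil.1 hn.2
    have h1 := card_le_card hsub
    rw [Nat.card_Ioo] at h1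
    have h2 : ⌈x⌉₊ ≤ I.card + ⌊x - x ^ ε⌋₊ + 1 := by omega
    have h3 : (⌈x⌉₊ : ℝ) ≤ I.card + ⌊x - x ^ ε⌋₊ + 1 := by exact_mod_cast h2
    have h4 := Nat.le_ceil x
    have h5 := Nat.floor_le (show 0 ≤ x - x ^ ε by linarith [Nat.cast_nonneg (α := ℝ) k])
    linarith
  set A : Finset ℕ := I.filter (fun n => ∀ j ∈ range (k + 1), n - (y0 - j) ∈ Aj j) with hA
  have hAI : ∀ n ∈ A, x - x ^ ε < n ∧ (n : ℝ) < x := by
    intro n hn
    rw [hA, mem_filter, hI, mem_filter] at hn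
    exact hn.1.2
  refine ⟨A, hAI, ?_, ?_⟩
  · -- complement
    have hcomp : I \ A ⊆ (range (k + 1)).biUnion (fun j => I.filter (fun n => n - (y0 - j) ∉ Aj j)) := by
      intro n hn
      obtain ⟨hnI, hnA⟩ := Finset.mem_sdiff.1 hn
      rw [hA, mem_filter, not_and] at hnA
      have h1 := hnA hnI
      push Not at h1
      obtain ⟨j, hj, h2⟩ := h1
      rw [mem_biUnion]
      exact ⟨j, hj, mem_filter.2 ⟨hnI, h2⟩⟩
    have hpart : ∀ j ∈ range (k + 1), ((I.filter (fun n => n - (y0 - j) ∉ Aj j)).card : ℝ) ≤ η' * (XX k ε x) := by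
      intro j hj
      have hjk : j ≤ k := by have := mem_range.1 hj; omega
      obtain ⟨g1, g2, g3⟩ := hAj j hjk
      have h1 : (I.filter (fun n => n - (y0 - j) ∉ Aj j)).card ≤ (Icc 1 (XX k ε x) \ Aj j).card := by
        apply card_le_card_of_injOn (fun n => n - (y0 - j))
        · intro n hn
          have hn' := mem_filter.1 hn
          have hnI := (mem_filter.1 hn'.1).2
          have h2 := (hbase j hjk).2.2 n hnI.1 hnI.2
          rw [coe_sdiff, Set.mem_diff, mem_coe, mem_coe, mem_Icc]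
          beta_reduce
          exact ⟨by omega, hn'.2⟩
        · intro a ha b' hb' hab
          have ha' := (mem_filter.1 (mem_filter.1 ha).1).2
          have hb'' := (mem_filter.1 (mem_filter.1 hb').1).2
          have h1 := (hbase j hjk).2.2 a ha'.1 ha'.2
          have h2 := (hbase j hjk).2.2 b' hb''.1 hb''.2
          simp only at hab
          omega
      have h2 : (Icc 1 (XX k ε x) \ Aj j).card = XX k ε x - (Aj j).card := by
        rw [card_sdiff_of_subset, Nat.card_Icc, Nat.add_sub_cancel]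
        intro p hp
        rw [mem_Icc]
        exact g1 p hp
      have h3 : (Aj j).card ≤ XX k ε x := by
        have : Aj j ⊆ Icc 1 (XX k ε x) := fun p hp => mem_Icc.2 (g1 p hp)
        have := card_le_card this
        rwa [Nat.card_Icc, Nat.add_sub_cancel] at this
      have h4 : ((Icc 1 (XX k ε x) \ Aj j).card : ℝ) = (XX k ε x : ℝ) - (Aj j).card := by
        rw [h2, Nat.cast_sub h3]
      have h5 : ((I.filter (fun n => n - (y0 - j) ∉ Aj j)).card : ℝ) ≤ ((Icc 1 (XX k ε x) \ Aj j).card : ℝ) := by exact_mod_cast h1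
      rw [h4] at h5
      linarith
    have h1 : ((I \ A).card : ℝ) ≤ (k + 1) * (η' * (XX k ε x)) := by
      have h2 := (card_le_card hcomp).trans card_biUnion_le
      calc ((I \ A).card : ℝ) ≤ ((∑ j ∈ range (k + 1), (I.filter (fun n => n - (y0 - j) ∉ Aj j)).card : ℕ) : ℝ) := by exact_mod_cast h2
        _ = ∑ j ∈ range (k + 1), ((I.filter (fun n => n - (y0 - j) ∉ Aj j)).card : ℝ) := by push_cast; rfl
        _ ≤ ∑ j ∈ range (k + 1), η' * (XX k ε x) := sum_le_sum hpart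
        _ = _ := by rw [sum_const, card_range, nsmul_eq_mul]; push_cast; ring
    have h2 : I.card ≤ (I \ A).card + A.card := by
      have := le_card_sdiff A I
      omega
    have h3 : (I.card : ℝ) ≤ (I \ A).card + A.card := by exact_mod_cast h2
    have h4 : ((k : ℝ) + 1) * (η' * (XX k ε x)) ≤ (η / 2) * x ^ ε := by
      have : ((k : ℝ) + 1) * (η' * (XX k ε x)) = (η / 4) * (XX k ε x) := by
        rw [hη']; field_simp
      rw [this]
      have := hs.X2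
      nlinarith
    have h5 : 2 ≤ (η / 2) * x ^ ε := by
      rw [div_le_iff₀ hη] at hbig
      nlinarith [Nat.cast_nonneg (α := ℝ) k]
    linarith
  · intro S hSm
    obtain ⟨hj, hnz⟩ := hb S hSm
    obtain ⟨g1, g2, g3⟩ := hAj (b S) hj
    have h1 := gX_le (t := t) (r := r) hs A (y0 - b S) (fun n hn =>
          ((hbase (b S) hj).2.2 n (hAI n hn).1 (hAI n hn).2).1.le) S
    have h2 : G3 (A.image (fun n => n - (y0 - b S))) (XX k ε x) (2 * t) r (shf ((y0 - b S : ℕ) : ℤ) S) ⊆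
        G3 (Aj (b S)) (XX k ε x) (2 * t) r (shf ((y0 - b S : ℕ) : ℤ) S) := by
      intro m hm
      unfold G3 at hm ⊢
      rw [mem_filter] at hm ⊢
      refine ⟨?_, hm.2⟩
      obtain ⟨n, hn, rfl⟩ := mem_image.1 hm.1
      rw [hA, mem_filter] at hn
      exact hn.2 (b S) (mem_range.2 (by omega))
    have h3 := g3 S hSm rfl
    rw [h3] at h2
    have h4 := h1.trans h2
    rw [subset_empty, image_eq_empty] at h4
    exact h4

end Pool.Agent.W23.KI
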